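import Pool.Agent.LibHZ89.Core2
import Pool.Agent.LibHZ89.G3

/-!
# The main theorem (assembly)
-/

namespace HZ89

open Finset

/-- `hur y = ∑_{n ∈ ℤ} |n + y|⁻³`, which is `ζ(3, y) + ζ(3, 1 - y)` for `0 < y < 1` -/
noncomputable def hur (y : ℝ) : ℝ := ∑' n : ℤ, 1 / |(n : ℝ) + y| ^ 3

theorem summable_shift {y : ℝ} (h0 : 0 < y) (h1 : y ≤ 1) :
    Summable fun m : ℕ => 1 / ((m : ℝ) + y) ^ 3 := by
  have hs : Summable fun m : ℕ => (1 / y ^ 3) * (1 / ((m : ℝ) + 1) ^ 3) := by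
    refine Summable.mul_left _ ?_
    have := (summable_nat_add_iff 1).2 (Real.summable_one_div_nat_pow.2 (by norm_num : 1 < 3))
    simpa using this
  refine Summable.of_nonneg_of_le (fun m => by positivity) (fun m => ?_) hs
  have h2 : y * ((m : ℝ) + 1) ≤ (m : ℝ) + y := by
    have hm : (0 : ℝ) ≤ m := Nat.cast_nonneg m
    nlinarith
  have h3 : (1 / y ^ 3) * (1 / ((m : ℝ) + 1) ^ 3) = 1 / (y * ((m : ℝ) + 1)) ^ 3 := by
    rw [mul_pow, one_div_mul_one_div]
  show 1 / ((m : ℝ) + y) ^ 3 ≤ (1 / y ^ 3) * (1 / ((m : ℝ) + 1) ^ 3)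
  rw [h3]
  have hm : (0 : ℝ) ≤ m := Nat.cast_nonneg m
  gcongr

theorem hur_eq {y : ℝ} (h0 : 0 < y) (h1 : y < 1) :
    hur y = ∑' m : ℕ, (1 / ((m : ℝ) + y) ^ 3 + 1 / ((m : ℝ) + (1 - y)) ^ 3) := by
  have e1 : ∀ m : ℕ, 1 / |((m : ℤ) : ℝ) + y| ^ 3 = 1 / ((m : ℝ) + y) ^ 3 := by
    intro m
    rw [abs_of_pos]
    · simp
    · push_cast
      positivity
  have e2 : ∀ m : ℕ, 1 / |((-((m : ℤ) + 1) : ℤ) : ℝ) + y| ^ 3 = 1 / ((m : ℝ) + (1 - y)) ^ 3 := by
    intro m
    have hm : (0 : ℝ) ≤ m := Nat.cast_nonneg m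
    rw [abs_of_neg]
    · push_cast
      congr 2
      ring
    · push_cast
      linarith
  have s1 := summable_shift h0 h1.le
  have s2 := summable_shift (y := 1 - y) (by linarith) (by linarith)
  unfold hur
  rw [tsum_of_nat_of_neg_add_one (f := fun n : ℤ => 1 / |(n : ℝ) + y| ^ 3), s1.tsum_add s2]
  · congr 1
    · exact tsum_congr e1
    · exact tsum_congr e2
  · exact s1.congr fun m => (e1 m).symm
  · exact s2.congr fun m => (e2 m).symm

theorem S_eq {q x : ℕ} (hx : 1 ≤ x) (hx2 : 2 * x < q) :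
    S q x = 1 / (q : ℝ) ^ 3 * hur ((x : ℝ) / q) := by
  have hq : (0 : ℝ) < q := by exact_mod_cast (by omega : 0 < q)
  have hx0 : (0 : ℝ) < x := by exact_mod_cast hx
  have hxq : (x : ℝ) < q := by exact_mod_cast (by omega : x < q)
  rw [hur_eq (by positivity) (by rw [div_lt_one hq]; exact hxq), ← tsum_mul_left]
  unfold S
  refine tsum_congr fun m => ?_
  have e1 : (q : ℝ) * m + x = q * (m + x / q) := by field_simp
  have e2 : (q : ℝ) * m + (q - x) = q * (m + (1 - x / q)) := by field_simp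
  rw [e1, e2, mul_pow, mul_pow, mul_add, ← one_div_mul_one_div_rev, ← one_div_mul_one_div_rev]
  ring

theorem main (q : ℕ) (hq : 2 ≤ q) (V : Submodule ℚ ℝ) (hV : Module.Finite ℚ V) (I : Finset ℕ)
    (hI : ∀ x ∈ I, 1 ≤ x ∧ 2 * x < q ∧ hur ((x : ℝ) / q) ∈ V) :
    (I.card : ℝ) ≤ 4200 * (Module.finrank ℚ V + 1) * q / Real.log q := by
  classical
  have hq0 : (0 : ℝ) < q := by exact_mod_cast (by omega : 0 < q)
  have hlog : 0 < Real.log q := Real.log_pos (by exact_mod_cast (by omega : 1 < q))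
  set V' : Submodule ℚ ℝ := V ⊔ Submodule.span ℚ {(1 : ℝ)} with hV'
  have : FiniteDimensional ℚ V := hV
  have : FiniteDimensional ℚ V' := Submodule.finiteDimensional_sup _ _
  have hfr : Module.finrank ℚ V' ≤ Module.finrank ℚ V + 1 := by
    refine (Submodule.finrank_add_le_finrank_add_finrank _ _).trans ?_
    have h := finrank_span_le_card (R := ℚ) ({(1 : ℝ)} : Set ℝ)
    simp only [Set.toFinset_singleton, card_singleton] at h
    omega
  have h1 : (1 : ℝ) ∈ V' := Submodule.mem_sup_right (Submodule.mem_span_singleton_self _)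
  have hD : 1 ≤ Module.finrank ℚ V' := by
    rw [Nat.one_le_iff_ne_zero]
    intro h0
    have h2 := Submodule.finrank_eq_zero.1 h0
    rw [h2] at h1
    exact one_ne_zero ((Submodule.mem_bot ℚ).1 h1)
  have hS : ∀ x ∈ I, S q x ∈ V' := by
    intro x hx
    obtain ⟨hx1, hx2, hx3⟩ := hI x hx
    rw [S_eq hx1 hx2]
    have h3 := V.smul_mem ((1 / (q : ℚ) ^ 3)) hx3
    rw [Rat.smul_def] at h3
    push_cast at h3
    exact Submodule.mem_sup_left h3
  obtain ⟨u, hu9, huu, huq⟩ := choose_u' hq hD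
  by_contra hcon
  rw [not_le] at hcon
  have h4 : (400 * u : ℝ) < I.card := by
    refine lt_of_le_of_lt (huq.trans ?_) hcon
    have h5 : (Module.finrank ℚ V' : ℝ) ≤ Module.finrank ℚ V + 1 := by exact_mod_cast hfr
    gcongr
  have h5 : 400 * u ≤ I.card := by
    have : ((400 * u : ℕ) : ℝ) < I.card := by push_cast; exact h4
    exact (by exact_mod_cast this : 400 * u < I.card).le
  obtain ⟨J, hJ, hJc⟩ := exists_subset_card_eq h5
  exact core' (by omega) hu9 huu hD (fun x hx => ⟨(hI x (hJ hx)).1, (hI x (hJ hx)).2.1⟩) hJc V' rfl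
    h1 (fun x hx => hS x (hJ hx))

end HZ89
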