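import Pool.Agent.LibHZ89.Defs

/-!
# Row B1: the polynomials `C(j, k) C(q n - j, k)`
-/

namespace HZ89

open Finset

private theorem b1_desc (a k : ℕ) : ((a.descFactorial k : ℕ) : ℝ) = ∏ m ∈ range k, ((a : ℝ) - m) := by
  rw [← descPochhammer_eval_eq_descFactorial ℝ a k, descPochhammer_eval_eq_prod_range]

/-- Plan: `(k!) C(j,k) = ∏_{m<k} (j - m)` (`Nat.cast_choose_eq...`, descPochhammer or
`Nat.descFactorial`), `(j - m) (L - j - m) = j (L - j) - m (L - m)`, `q² om j = j (L - j)`. -/
theorem bp_eval {q n k j : ℕ} (hq : 1 ≤ q) (hj : j ≤ q * n) :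
    (bp q n k).eval (om q n j) = BB (q * n) k j := by
  have hqR : (q : ℝ) ≠ 0 := by exact_mod_cast (by omega : q ≠ 0)
  have hk : ((k.factorial : ℕ) : ℝ) ≠ 0 := by exact_mod_cast Nat.factorial_ne_zero k
  have h1 : ((j.descFactorial k : ℕ) : ℝ) = k.factorial * (j.choose k : ℕ) := by
    rw [Nat.descFactorial_eq_factorial_mul_choose]; push_cast; ring
  have h2 : (((q * n - j).descFactorial k : ℕ) : ℝ) = k.factorial * ((q * n - j).choose k : ℕ) := by
    rw [Nat.descFactorial_eq_factorial_mul_choose]; push_cast; ring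
  have h3 : (bp q n k).eval (om q n j) = 1 / ((k.factorial : ℝ) ^ 2) *
      ∏ m ∈ range k, ((q : ℝ) ^ 2 * om q n j - (m : ℝ) * (q * n - m)) := by
    unfold bp
    simp only [Polynomial.eval_mul, Polynomial.eval_C, Polynomial.eval_prod, Polynomial.eval_sub, Polynomial.eval_X]
  have h4 : ∏ m ∈ range k, ((q : ℝ) ^ 2 * om q n j - (m : ℝ) * (q * n - m)) =
      ((j.descFactorial k : ℕ) : ℝ) * (((q * n - j).descFactorial k : ℕ) : ℝ) := by
    rw [b1_desc, b1_desc, ← Finset.prod_mul_distrib]
    refine Finset.prod_congr rfl fun m _ => ?_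
    rw [Nat.cast_sub hj]
    unfold om
    push_cast
    field_simp
    ring
  rw [h3, h4, h1, h2]
  unfold BB
  push_cast
  field_simp

private theorem b1_lin {q n m : ℕ} (hq : 1 ≤ q) : (Polynomial.C ((q : ℝ) ^ 2) * Polynomial.X -
      Polynomial.C ((m : ℝ) * (q * n - m))).natDegree = 1 := by
  have hqR : (q : ℝ) ^ 2 ≠ 0 := by
    have : (q : ℝ) ≠ 0 := by exact_mod_cast (by omega : q ≠ 0)
    positivity
  rw [sub_eq_add_neg, ← Polynomial.C_neg]
  exact Polynomial.natDegree_linear hqR

private theorem b1_ne {q n k : ℕ} (hq : 1 ≤ q) : bp q n k ≠ 0 := by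
  have hk : 1 / ((k.factorial : ℝ) ^ 2) ≠ 0 := by
    have : ((k.factorial : ℕ) : ℝ) ≠ 0 := by exact_mod_cast Nat.factorial_ne_zero k
    positivity
  unfold bp
  refine mul_ne_zero (Polynomial.C_ne_zero.mpr hk) (Finset.prod_ne_zero_iff.mpr fun m _ h0 => ?_)
  have := b1_lin (q := q) (n := n) (m := m) hq
  rw [h0] at this
  simp at this

theorem bp_natDegree {q n k : ℕ} (hq : 1 ≤ q) : (bp q n k).natDegree = k := by
  have hk : 1 / ((k.factorial : ℝ) ^ 2) ≠ 0 := by
    have : ((k.factorial : ℕ) : ℝ) ≠ 0 := by exact_mod_cast Nat.factorial_ne_zero k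
    positivity
  unfold bp
  rw [Polynomial.natDegree_C_mul hk, Polynomial.natDegree_prod]
  · rw [Finset.sum_congr rfl fun m _ => b1_lin hq]
    simp
  · intro m _ h0
    have := b1_lin (q := q) (n := n) (m := m) hq
    rw [h0] at this
    simp at this

/-- `C(j, k) C(L - j, k) ≤ 2^j 2^(L-j)` -/
theorem BB_le {L k j : ℕ} (hj : j ≤ L) : BB L k j ≤ 2 ^ L := by
  unfold BB
  calc j.choose k * (L - j).choose k ≤ 2 ^ j * 2 ^ (L - j) :=
        Nat.mul_le_mul (Nat.choose_le_two_pow _ _) (Nat.choose_le_two_pow _ _)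
    _ = 2 ^ L := by rw [← pow_add]; congr 1; omega

/-- The polynomials `bp q n k`, `k < d`, span the polynomials of degree less than `d`.
Plan: strong induction on the degree, subtract a multiple of `bp`. -/
theorem bp_span {q n d : ℕ} (hq : 1 ≤ q) (f : Polynomial ℝ →ₗ[ℝ] ℝ)
    (h : ∀ k < d, f (bp q n k) = 0) (p : Polynomial ℝ) (hp : p.natDegree < d) : f p = 0 := by
  have key : ∀ N : ℕ, N ≤ d → ∀ p : Polynomial ℝ, p.degree < N → f p = 0 := by
    intro N
    induction N with
    | zero =>
      intro _ p hp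
      have : p = 0 := by
        rw [← Polynomial.degree_eq_bot]
        exact Nat.WithBot.lt_zero_iff.mp (by simpa using hp)
      rw [this, map_zero]
    | succ N ih =>
      intro hN p hp
      have hb : (bp q n N).natDegree = N := bp_natDegree hq
      have hb0 : (bp q n N).coeff N ≠ 0 := by
        have := Polynomial.leadingCoeff_ne_zero.mpr (b1_ne (q := q) (n := n) (k := N) hq)
        rw [Polynomial.leadingCoeff, hb] at this
        exact this
      have hr : (p - (p.coeff N / (bp q n N).coeff N) • bp q n N).degree < (N : WithBot ℕ) := by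
        rw [Polynomial.degree_lt_iff_coeff_zero]
        intro m hm
        rw [Polynomial.coeff_sub, Polynomial.coeff_smul, smul_eq_mul]
        rcases Nat.eq_or_lt_of_le hm with hm | hm
        · rw [← hm, div_mul_cancel₀ _ hb0, sub_self]
        · have hbm : (bp q n N).coeff m = 0 :=
            Polynomial.coeff_eq_zero_of_natDegree_lt (by rw [hb]; exact hm)
          rw [hbm, mul_zero, sub_zero]
          exact (Polynomial.degree_lt_iff_coeff_zero p (N + 1)).mp (by exact_mod_cast hp) m hm
      have h1 := ih (by omega) _ hr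
      rw [map_sub, map_smul, h N (by omega), smul_zero, sub_zero] at h1
      exact h1
  exact key d le_rfl p (by
    rcases eq_or_ne p 0 with rfl | hp0
    · rw [Polynomial.degree_zero]; exact WithBot.bot_lt_coe _
    · rwa [Polynomial.degree_eq_natDegree hp0, Nat.cast_lt])

end HZ89
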