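import Pool.Agent.LibHZ89.Main

/-!
# Corollaries of the main theorem
-/

namespace HZ89

open Finset

theorem hur_half : hur (1 / 2) = 14 * ∑' n : ℕ, 1 / ((n : ℝ) + 1) ^ 3 := by
  have hs : Summable fun n : ℕ => 1 / ((n : ℝ) + 1) ^ 3 := by
    have := (summable_nat_add_iff 1).2 (Real.summable_one_div_nat_pow.2 (by norm_num : 1 < 3))
    simpa using this
  obtain ⟨f, hf⟩ : ∃ f : ℕ → ℝ, f = fun n : ℕ => 1 / ((n : ℝ) + 1) ^ 3 := ⟨_, rfl⟩
  rw [← hf] at hs
  have h2 : Function.Injective fun k : ℕ => 2 * k := fun a b h => by simpa using h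
  have h3 : Function.Injective fun k : ℕ => 2 * k + 1 := fun a b h => by simpa using h
  have he : Summable fun k : ℕ => f (2 * k) := hs.comp_injective h2
  have ho : Summable fun k : ℕ => f (2 * k + 1) := hs.comp_injective h3
  have hsum : ∑' k : ℕ, f (2 * k) + ∑' k : ℕ, f (2 * k + 1) = ∑' n : ℕ, f n :=
    tsum_even_add_odd he ho
  have e1 : ∑' k : ℕ, f (2 * k + 1) = 1 / 8 * ∑' n : ℕ, f n := by
    rw [← tsum_mul_left]
    refine tsum_congr fun k => ?_
    rw [hf]
    beta_reduce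
    have h4 : (((2 * k + 1 : ℕ) : ℝ) + 1) = 2 * ((k : ℝ) + 1) := by
      push_cast
      ring
    rw [h4, mul_pow, ← one_div_mul_one_div_rev]
    ring
  have e2 : hur (1 / 2) = 16 * ∑' k : ℕ, f (2 * k) := by
    rw [hur_eq (by norm_num) (by norm_num), ← tsum_mul_left]
    refine tsum_congr fun k => ?_
    rw [hf]
    beta_reduce
    have h4 : (((2 * k : ℕ) : ℝ) + 1) = 2 * ((k : ℝ) + 1 / 2) := by
      push_cast
      ring
    have h5 : (k : ℝ) + (1 - 1 / 2) = k + 1 / 2 := by ring
    rw [h4, h5, mul_pow, ← one_div_mul_one_div_rev]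
    ring
  have h6 : ∑' n : ℕ, 1 / ((n : ℝ) + 1) ^ 3 = ∑' n : ℕ, f n := by rw [hf]
  rw [e2, h6]
  generalize ∑' n : ℕ, f n = z at *
  generalize ∑' k : ℕ, f (2 * k) = a at *
  generalize ∑' k : ℕ, f (2 * k + 1) = b at *
  linarith

/-- Rational numbers ordered by their denominators. -/
theorem height {Q : ℕ} (hQ : 3 ≤ Q) (V : Submodule ℚ ℝ) (hV : Module.Finite ℚ V)
    (R : Finset ℚ) (hR : ∀ y ∈ R, 0 < y ∧ y < 1 / 2 ∧ y.den ≤ Q ∧ hur (y : ℝ) ∈ V) :
    (R.card : ℝ) ≤ 4200 * (Module.finrank ℚ V + 1) * Q ^ 2 / Real.log Q := by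
  classical
  have hcard : R.card ≤ ∑ q ∈ Icc 3 Q, (R.filter fun y => y.den = q).card := by
    rw [← Finset.card_biUnion]
    · refine Finset.card_le_card fun y hy => ?_
      obtain ⟨h0, h1, h2, -⟩ := hR y hy
      have h3 : 3 ≤ y.den := by
        by_contra hcon
        push Not at hcon
        have hpos : 0 < y.num := Rat.num_pos.2 h0
        have hy2 : y * y.den = y.num := Rat.mul_den_eq_num y
        have h5 : (1 : ℚ) ≤ y.num := by exact_mod_cast hpos
        have h6 : (y.den : ℚ) ≤ 2 := by exact_mod_cast (by omega : y.den ≤ 2)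
        nlinarith
      rw [mem_biUnion]
      exact ⟨y.den, mem_Icc.2 ⟨h3, h2⟩, mem_filter.2 ⟨hy, rfl⟩⟩
    · intro a _ b _ hab
      rw [Function.onFun, Finset.disjoint_left]
      intro y hy1 hy2
      exact hab ((mem_filter.1 hy1).2.symm.trans (mem_filter.1 hy2).2)
  have hone : ∀ q ∈ Icc 3 Q, ((R.filter fun y => y.den = q).card : ℝ) ≤
      4200 * (Module.finrank ℚ V + 1) * Q / Real.log Q := by
    intro q hq
    rw [mem_Icc] at hq
    have hq3 : (3 : ℝ) ≤ q := by exact_mod_cast hq.1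
    have hqQ : (q : ℝ) ≤ Q := by exact_mod_cast hq.2
    set F := R.filter fun y => y.den = q with hF
    have hinj : Set.InjOn (fun y : ℚ => y.num.toNat) F := by
      intro y hy z hz hyz
      rw [Finset.mem_coe, hF, mem_filter] at hy hz
      have h1 : 0 < y.num := Rat.num_pos.2 (hR y hy.1).1
      have h2 : 0 < z.num := Rat.num_pos.2 (hR z hz.1).1
      have h3 : y.num = z.num := by
        simp only at hyz
        omega
      exact Rat.ext h3 (hy.2.trans hz.2.symm)
    have h := main q (by omega) V hV (F.image fun y => y.num.toNat) (by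
      intro x hx
      rw [mem_image] at hx
      obtain ⟨y, hy, rfl⟩ := hx
      rw [hF, mem_filter] at hy
      obtain ⟨h0, h1, h2, h3⟩ := hR y hy.1
      have hpos : 0 < y.num := Rat.num_pos.2 h0
      have hcast : ((y.num.toNat : ℕ) : ℤ) = y.num := Int.toNat_of_nonneg hpos.le
      have hyq : y * q = y.num := by
        rw [← hy.2]
        exact Rat.mul_den_eq_num y
      refine ⟨by omega, ?_, ?_⟩
      · have h5 : (2 : ℚ) * (y.num.toNat : ℕ) < q := by
          have h6 : ((y.num.toNat : ℕ) : ℚ) = y.num := by exact_mod_cast hcast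
          have hq0 : (0 : ℚ) < q := by exact_mod_cast (by omega : 0 < q)
          rw [h6, ← hyq]
          nlinarith
        exact_mod_cast h5
      · have h6 : (((y.num.toNat : ℕ) : ℝ)) / q = (y : ℝ) := by
          have h7 : ((y.num.toNat : ℕ) : ℝ) = ((y.num : ℤ) : ℝ) := by exact_mod_cast hcast
          rw [h7, ← hy.2]
          have h8 := congrArg (fun z : ℚ => (z : ℝ)) (Rat.num_div_den y)
          push_cast at h8
          exact h8
        rw [h6]
        exact h3)
    rw [card_image_of_injOn hinj] at h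
    refine h.trans ?_
    have hlogq : 0 < Real.log q := Real.log_pos (by linarith)
    have hlogQ : 0 < Real.log Q := Real.log_pos (by linarith)
    have hmono : (q : ℝ) / Real.log q ≤ Q / Real.log Q := by
      have hanti := Real.log_div_self_antitoneOn
      have he : Real.exp 1 ≤ 3 := by
        have := Real.exp_one_lt_d9
        linarith
      have h9 : Real.log Q / Q ≤ Real.log q / q :=
        hanti (by rw [Set.mem_Ici]; linarith) (by rw [Set.mem_Ici]; linarith) hqQ
      rw [div_le_div_iff₀ hlogq hlogQ]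
      rw [div_le_div_iff₀ (by linarith) (by linarith)] at h9
      linarith
    calc 4200 * ((Module.finrank ℚ V : ℝ) + 1) * q / Real.log q
        = 4200 * ((Module.finrank ℚ V : ℝ) + 1) * (q / Real.log q) := by ring
      _ ≤ 4200 * ((Module.finrank ℚ V : ℝ) + 1) * (Q / Real.log Q) := by gcongr
      _ = 4200 * (Module.finrank ℚ V + 1) * Q / Real.log Q := by ring
  have hlogQ : 0 < Real.log Q := by
    have hQ3 : (3 : ℝ) ≤ Q := by exact_mod_cast hQ
    exact Real.log_pos (by linarith)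
  calc (R.card : ℝ) ≤ ((∑ q ∈ Icc 3 Q, (R.filter fun y => y.den = q).card : ℕ) : ℝ) := by
        exact_mod_cast hcard
    _ = ∑ q ∈ Icc 3 Q, ((R.filter fun y => y.den = q).card : ℝ) := by push_cast; rfl
    _ ≤ ∑ _q ∈ Icc 3 Q, (4200 * (Module.finrank ℚ V + 1) * Q / Real.log Q : ℝ) :=
        sum_le_sum hone
    _ = (Icc 3 Q).card * (4200 * (Module.finrank ℚ V + 1) * Q / Real.log Q : ℝ) := by
        rw [sum_const, nsmul_eq_mul]
    _ ≤ Q * (4200 * (Module.finrank ℚ V + 1) * Q / Real.log Q : ℝ) := by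
        have h1 : ((Icc 3 Q).card : ℝ) ≤ Q := by
          rw [Nat.card_Icc]
          exact_mod_cast (by omega : Q + 1 - 3 ≤ Q)
        have h2 : (0 : ℝ) ≤ 4200 * (Module.finrank ℚ V + 1) * Q / Real.log Q := by positivity
        exact mul_le_mul_of_nonneg_right h1 h2
    _ = 4200 * (Module.finrank ℚ V + 1) * Q ^ 2 / Real.log Q := by ring

/-- `π³` and `ζ(3)`. -/
theorem three {q : ℕ} (hq : 2 ≤ q) (ξ η : ℝ) (I : Finset ℕ)
    (hI : ∀ x ∈ I, 1 ≤ x ∧ 2 * x < q ∧ ∃ a b c : ℚ, hur ((x : ℝ) / q) = a + b * ξ + c * η) :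
    (I.card : ℝ) ≤ 16800 * q / Real.log q := by
  classical
  set V : Submodule ℚ ℝ := Submodule.span ℚ (({1, ξ, η} : Finset ℝ) : Set ℝ) with hVdef
  have hfin : Module.Finite ℚ V := FiniteDimensional.span_finset ℚ _
  have hrank : Module.finrank ℚ V ≤ 3 := by
    refine (finrank_span_finset_le_card _).trans ?_
    exact Finset.card_le_three
  have hmem : ∀ x ∈ I, 1 ≤ x ∧ 2 * x < q ∧ hur ((x : ℝ) / q) ∈ V := by
    intro x hx
    obtain ⟨h1, h2, a, b, c, h3⟩ := hI x hx
    refine ⟨h1, h2, ?_⟩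
    rw [h3]
    have e1 : (1 : ℝ) ∈ V := Submodule.subset_span (by simp)
    have e2 : ξ ∈ V := Submodule.subset_span (by simp)
    have e3 : η ∈ V := Submodule.subset_span (by simp)
    have e4 := V.smul_mem a e1
    have e5 := V.smul_mem b e2
    have e6 := V.smul_mem c e3
    rw [Rat.smul_def] at e4 e5 e6
    rw [mul_one] at e4
    exact V.add_mem (V.add_mem e4 e5) e6
  have h := main q hq V hfin I hmem
  refine h.trans ?_
  have hlogq : 0 < Real.log q := Real.log_pos (by exact_mod_cast (by omega : 1 < q))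
  have h5 : (Module.finrank ℚ V : ℝ) ≤ 3 := by exact_mod_cast hrank
  calc 4200 * ((Module.finrank ℚ V : ℝ) + 1) * q / Real.log q
      ≤ 4200 * (3 + 1) * q / Real.log q := by gcongr
    _ = 16800 * q / Real.log q := by ring

/-- The dimension. -/
theorem dimension {q : ℕ} (hq : 2 ≤ q) :
    (((q - 1) / 2 : ℕ) : ℝ) ≤ 4200 * (Module.finrank ℚ (Submodule.span ℚ
      ((fun x : ℕ => hur ((x : ℝ) / q)) '' {x : ℕ | 1 ≤ x ∧ 2 * x < q})) + 1) * q / Real.log q := by
  classical
  have hset : {x : ℕ | 1 ≤ x ∧ 2 * x < q} = ((Icc 1 ((q - 1) / 2) : Finset ℕ) : Set ℕ) := by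
    ext x
    rw [Set.mem_ofPred_eq, Finset.mem_coe, mem_Icc]
    omega
  have hfin : Module.Finite ℚ (Submodule.span ℚ
      ((fun x : ℕ => hur ((x : ℝ) / q)) '' {x : ℕ | 1 ≤ x ∧ 2 * x < q})) := by
    rw [hset]
    exact FiniteDimensional.span_of_finite ℚ ((Finset.finite_toSet _).image _)
  have h := main q hq _ hfin (Icc 1 ((q - 1) / 2)) (by
    intro x hx
    rw [mem_Icc] at hx
    refine ⟨hx.1, by omega, Submodule.subset_span ⟨x, ?_, rfl⟩⟩
    rw [Set.mem_ofPred_eq]
    omega)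
  rw [Nat.card_Icc, Nat.add_sub_cancel] at h
  exact h

end HZ89
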