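import Pool.Agent.LibHZ89.Cor

/-!
# Even periodic functions
-/

namespace HZ89

open Finset

/-- A coset of the kernel of a linear map of rank `r` contains at most `|S| ^ (m - r)` points of
`S ^ m`. -/
theorem coset_card {ι : Type} [Fintype ι] [DecidableEq ι] {W : Type} [AddCommGroup W] [Module ℚ W]
    (v : ι → W) (w₀ : W) (S : Finset ℚ) (F : Finset (ι → ℚ))
    (hF : ∀ f ∈ F, (∀ i, f i ∈ S) ∧ ∑ i, f i • v i = w₀) :
    F.card * S.card ^ Module.finrank ℚ (Submodule.span ℚ (Set.range v)) ≤ S.card ^ Fintype.card ι := by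
  classical
  -- a maximal independent subfamily
  obtain ⟨κ, a, ha, hspan, hli⟩ := exists_linearIndependent' ℚ v
  have : Finite κ := Finite.of_injective a ha
  have : Fintype κ := Fintype.ofFinite κ
  have hr : Module.finrank ℚ (Submodule.span ℚ (Set.range v)) = Fintype.card κ := by
    rw [← hspan]
    exact finrank_span_eq_card hli
  rw [hr]
  set T : Finset ι := univ.image a with hT
  have hTc : T.card = Fintype.card κ := by
    rw [hT, card_image_of_injective _ ha, card_univ]
  -- the restriction to the complement of `T` is injective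
  have hle : F.card ≤ (Fintype.piFinset fun _ : {i : ι // i ∉ T} => S).card := by
    refine card_le_card_of_injOn (fun f => fun i : {i : ι // i ∉ T} => f i) ?_ ?_
    · intro f hf
      rw [Finset.mem_coe] at hf
      rw [Finset.mem_coe, Fintype.mem_piFinset]
      intro i
      exact (hF f hf).1 i
    · intro f hf g hg hfg
      rw [Finset.mem_coe] at hf hg
      have h1 : ∀ i, i ∉ T → f i = g i := fun i hi => congrFun hfg ⟨i, hi⟩
      have h2 : ∑ i, (f i - g i) • v i = 0 := by
        have h3 := (hF f hf).2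
        have h4 := (hF g hg).2
        simp only [sub_smul, sum_sub_distrib]
        rw [h3, h4, sub_self]
      have h5 : ∑ k : κ, (f (a k) - g (a k)) • (v ∘ a) k = 0 := by
        have h6 : ∑ i, (f i - g i) • v i = ∑ i ∈ T, (f i - g i) • v i := by
          symm
          apply sum_subset (subset_univ T)
          intro i _ hi
          rw [h1 i hi, sub_self, zero_smul]
        rw [h6, hT, sum_image (fun x _ y _ h => ha h)] at h2
        exact h2
      have h7 := Fintype.linearIndependent_iff.1 hli _ h5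
      ext i
      by_cases hi : i ∈ T
      · rw [hT, mem_image] at hi
        obtain ⟨k, -, rfl⟩ := hi
        exact sub_eq_zero.1 (h7 k)
      · exact h1 i hi
  have hc : (Fintype.piFinset fun _ : {i : ι // i ∉ T} => S).card =
      S.card ^ (Fintype.card ι - Fintype.card κ) := by
    rw [Fintype.card_piFinset, prod_const, card_univ, Fintype.card_subtype_compl, Fintype.card_coe, hTc]
  have hκ : Fintype.card κ ≤ Fintype.card ι := Fintype.card_le_of_injective a ha
  calc F.card * S.card ^ Fintype.card κ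
      ≤ S.card ^ (Fintype.card ι - Fintype.card κ) * S.card ^ Fintype.card κ := by
        rw [← hc]
        gcongr
    _ = S.card ^ Fintype.card ι := by
        rw [← pow_add, Nat.sub_add_cancel hκ]

/-- The rank of the values modulo `V`. -/
theorem rank_ge {q : ℕ} (hq : 2 ≤ q) (V : Submodule ℚ ℝ) (hV : Module.Finite ℚ V) {ι : Type}
    [Fintype ι] (v : ι → ℝ) (hv : ∀ x : ℕ, 1 ≤ x → 2 * x < q → ∃ i, v i = S q x) :
    Real.log q / 16800 - Module.finrank ℚ V - 1 ≤
      Module.finrank ℚ (Submodule.span ℚ (Set.range fun i => V.mkQ (v i))) := by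
  classical
  obtain ⟨κ, a, ha, hspan, hli⟩ := exists_linearIndependent' ℚ (fun i => V.mkQ (v i))
  have : Finite κ := Finite.of_injective a ha
  have : Fintype κ := Fintype.ofFinite κ
  have hr : Module.finrank ℚ (Submodule.span ℚ (Set.range fun i => V.mkQ (v i))) =
      Fintype.card κ := by
    rw [← hspan]
    exact finrank_span_eq_card hli
  rw [hr]
  set U : Submodule ℚ ℝ := Submodule.span ℚ (Set.range fun k => v (a k)) with hU
  have : FiniteDimensional ℚ V := hV
  have hUfin : FiniteDimensional ℚ U := FiniteDimensional.span_of_finite ℚ (Set.finite_range _)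
  have hVU : FiniteDimensional ℚ (V ⊔ U : Submodule ℚ ℝ) := Submodule.finiteDimensional_sup _ _
  have hfr : Module.finrank ℚ (V ⊔ U : Submodule ℚ ℝ) ≤ Module.finrank ℚ V + Fintype.card κ := by
    refine (Submodule.finrank_add_le_finrank_add_finrank _ _).trans ?_
    have h := finrank_range_le_card (R := ℚ) (fun k => v (a k))
    rw [Set.finrank] at h
    exact Nat.add_le_add_left h _
  have hmem : ∀ i, v i ∈ V ⊔ U := by
    intro i
    have h1 : V.mkQ (v i) ∈ Submodule.span ℚ (Set.range ((fun i => V.mkQ (v i)) ∘ a)) := by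
      rw [hspan]
      exact Submodule.subset_span ⟨i, rfl⟩
    have h2 : Submodule.span ℚ (Set.range ((fun i => V.mkQ (v i)) ∘ a)) = U.map V.mkQ := by
      rw [hU, Submodule.map_span, ← Set.range_comp]
      rfl
    rw [h2] at h1
    obtain ⟨w, hw, hw2⟩ := h1
    have h3 : v i - w ∈ V := by
      rw [← Submodule.ker_mkQ V, LinearMap.mem_ker, map_sub, hw2, sub_self]
    have h4 : v i = (v i - w) + w := by ring
    rw [h4]
    exact Submodule.add_mem_sup h3 hw
  have hq0 : (0 : ℝ) < q := by exact_mod_cast (by omega : 0 < q)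
  have hlog : 0 < Real.log q := Real.log_pos (by exact_mod_cast (by omega : 1 < q))
  have hmain := main q hq (V ⊔ U) hVU (Icc 1 ((q - 1) / 2)) (by
    intro x hx
    rw [mem_Icc] at hx
    refine ⟨hx.1, by omega, ?_⟩
    obtain ⟨i, hi⟩ := hv x hx.1 (by omega)
    have h5 := hmem i
    rw [hi, S_eq hx.1 (by omega)] at h5
    have h6 := (V ⊔ U).smul_mem ((q : ℚ) ^ 3) h5
    rw [Rat.smul_def] at h6
    push_cast at h6
    have h7 : (q : ℝ) ^ 3 * (1 / (q : ℝ) ^ 3 * hur ((x : ℝ) / q)) = hur ((x : ℝ) / q) := by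
      field_simp
    rwa [h7] at h6)
  rw [Nat.card_Icc, Nat.add_sub_cancel] at hmain
  have hfr' : (Module.finrank ℚ (V ⊔ U : Submodule ℚ ℝ) : ℝ) ≤
      Module.finrank ℚ V + Fintype.card κ := by exact_mod_cast hfr
  rcases Nat.lt_or_ge q 3 with h3 | h3
  · have hq2 : (q : ℝ) = 2 := by exact_mod_cast (by omega : q = 2)
    have h8 : Real.log q ≤ 1 := by
      rw [hq2]
      have := Real.log_two_lt_d9
      linarith
    have h9 : (0 : ℝ) ≤ Module.finrank ℚ V := Nat.cast_nonneg _
    have h10 : (0 : ℝ) ≤ Fintype.card κ := Nat.cast_nonneg _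
    have h18 : Real.log q / 16800 ≤ 1 := by
      rw [div_le_iff₀ (by norm_num)]
      linarith
    linarith
  · have h11 : (q : ℝ) / 4 ≤ (((q - 1) / 2 : ℕ) : ℝ) := by
      have h12 : q ≤ 4 * ((q - 1) / 2) := by omega
      have h13 : (q : ℝ) ≤ 4 * (((q - 1) / 2 : ℕ) : ℝ) := by exact_mod_cast h12
      linarith
    have h14 := h11.trans hmain
    rw [div_le_div_iff₀ (by norm_num) hlog] at h14
    have h15 : (q : ℝ) * Real.log q ≤
        q * (16800 * (Module.finrank ℚ V + Fintype.card κ + 1)) := by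
      calc (q : ℝ) * Real.log q
          ≤ 4200 * (Module.finrank ℚ (V ⊔ U : Submodule ℚ ℝ) + 1) * q * 4 := h14
        _ ≤ 4200 * ((Module.finrank ℚ V + Fintype.card κ : ℝ) + 1) * q * 4 := by gcongr
        _ = q * (16800 * (Module.finrank ℚ V + Fintype.card κ + 1)) := by ring
    have h16 := le_of_mul_le_mul_left h15 hq0
    have h17 : Real.log q / 16800 ≤ Module.finrank ℚ V + Fintype.card κ + 1 := by
      rw [div_le_iff₀ (by norm_num)]
      linarith
    linarith

/-- the representative of the class `± j` -/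
def cls (q : ℕ) [NeZero q] (j : ZMod q) : Fin (q / 2 + 1) :=
  ⟨j.valMinAbs.natAbs, Nat.lt_succ_of_le (ZMod.natAbs_valMinAbs_le j)⟩

theorem natAbs_cast {q : ℕ} [NeZero q] (j : ZMod q) :
    ((j.valMinAbs.natAbs : ℕ) : ZMod q) = j ∨ ((j.valMinAbs.natAbs : ℕ) : ZMod q) = -j := by
  have h1 : ((j.valMinAbs : ℤ) : ZMod q) = j := ZMod.coe_valMinAbs j
  have h0 : ((j.valMinAbs.natAbs : ℕ) : ZMod q) = (((j.valMinAbs.natAbs : ℕ) : ℤ) : ZMod q) :=
    (Int.cast_natCast _).symm
  rcases Int.natAbs_eq j.valMinAbs with h2 | h2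
  · left
    rw [h0, ← h2, h1]
  · right
    rw [h0]
    have h3 : ((j.valMinAbs.natAbs : ℕ) : ℤ) = -j.valMinAbs := by omega
    rw [h3, Int.cast_neg, h1]

theorem cls_eq {q : ℕ} [NeZero q] (f : ZMod q → ℚ) (hf : ∀ j, f (-j) = f j) (j : ZMod q) :
    f (((cls q j : Fin (q / 2 + 1)) : ℕ) : ZMod q) = f j := by
  unfold cls
  rcases natAbs_cast j with h | h
  · simp only
    rw [h]
  · simp only
    rw [h, hf]

/-- the sum of `n⁻³` over `n ≡ j` modulo `q` -/
noncomputable def AA (q : ℕ) [NeZero q] (j : ZMod q) : ℝ :=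
  ∑' m : ℕ, 1 / (((j.val + q * m : ℕ) : ℝ)) ^ 3

/-- the sum of `n⁻³` over `n ≡ ± i` modulo `q` -/
noncomputable def ZZ (q : ℕ) [NeZero q] (i : Fin (q / 2 + 1)) : ℝ :=
  ∑ j ∈ univ.filter (fun j : ZMod q => cls q j = i), AA q j

theorem L3_eq {q : ℕ} [NeZero q] (f : ZMod q → ℚ) (hf : ∀ j, f (-j) = f j) :
    ∑' n : ℕ, (f (n : ZMod q) : ℝ) / (n : ℝ) ^ 3 =
      ∑ i : Fin (q / 2 + 1), (f ((i : ℕ) : ZMod q) : ℝ) * ZZ q i := by
  classical
  have hsum : Summable fun n : ℕ => (f (n : ZMod q) : ℝ) / (n : ℝ) ^ 3 := by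
    have h1 : Summable fun n : ℕ => (∑ j : ZMod q, |(f j : ℝ)|) * (1 / (n : ℝ) ^ 3) :=
      (Real.summable_one_div_nat_pow.2 (by norm_num : 1 < 3)).mul_left _
    refine Summable.of_norm_bounded h1 fun n => ?_
    rw [Real.norm_eq_abs, abs_div, abs_of_nonneg (by positivity : (0 : ℝ) ≤ (n : ℝ) ^ 3)]
    rw [mul_one_div]
    have h2 : |(f (n : ZMod q) : ℝ)| ≤ ∑ j : ZMod q, |(f j : ℝ)| :=
      single_le_sum (f := fun j : ZMod q => |(f j : ℝ)|) (fun _ _ => abs_nonneg _) (mem_univ _)
    gcongr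
  rw [Nat.sumByResidueClasses hsum q]
  have h1 : ∀ j : ZMod q, ∑' m : ℕ, (f ((j.val + q * m : ℕ) : ZMod q) : ℝ) /
      ((j.val + q * m : ℕ) : ℝ) ^ 3 = (f (((cls q j : Fin (q / 2 + 1)) : ℕ) : ZMod q) : ℝ) * AA q j := by
    intro j
    unfold AA
    rw [← tsum_mul_left]
    refine tsum_congr fun m => ?_
    have h2 : ((j.val + q * m : ℕ) : ZMod q) = j := by
      push_cast
      rw [ZMod.natCast_self, zero_mul, add_zero, ZMod.natCast_zmod_val]
    rw [h2, cls_eq f hf]
    ring
  rw [Finset.sum_congr rfl fun j _ => h1 j]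
  unfold ZZ
  rw [← Finset.sum_fiberwise (s := univ) (g := fun j : ZMod q => cls q j)]
  refine Finset.sum_congr rfl fun i _ => ?_
  rw [Finset.mul_sum]
  refine Finset.sum_congr rfl fun j hj => ?_
  rw [(mem_filter.1 hj).2]

theorem ZZ_eq {q x : ℕ} [NeZero q] (hx : 1 ≤ x) (hx2 : 2 * x < q) :
    ∃ i : Fin (q / 2 + 1), ZZ q i = S q x := by
  classical
  have hxv : ((x : ℕ) : ZMod q).val = x := ZMod.val_natCast_of_lt (by omega)
  have hne : ((x : ℕ) : ZMod q) ≠ 0 := by
    intro h
    have h1 := congrArg ZMod.val h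
    rw [hxv, ZMod.val_zero] at h1
    omega
  have : NeZero ((x : ℕ) : ZMod q) := ⟨hne⟩
  have hnv : (-((x : ℕ) : ZMod q)).val = q - x := by
    rw [ZMod.val_neg_of_ne_zero, hxv]
  have hmin : ((x : ℕ) : ZMod q).valMinAbs.natAbs = x := by
    rw [ZMod.valMinAbs_natCast_of_le_half (by omega)]
    exact Int.natAbs_natCast x
  refine ⟨⟨x, by omega⟩, ?_⟩
  have hset : univ.filter (fun j : ZMod q => cls q j = ⟨x, by omega⟩) =
      {((x : ℕ) : ZMod q), -((x : ℕ) : ZMod q)} := by
    ext j
    rw [mem_filter, mem_insert, mem_singleton]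
    constructor
    · rintro ⟨-, h⟩
      have h1 : j.valMinAbs.natAbs = x := congrArg Fin.val h
      rcases natAbs_cast j with h2 | h2
      · rw [h1] at h2
        exact Or.inl h2.symm
      · rw [h1] at h2
        right
        rw [h2, neg_neg]
    · rintro (h | h)
      · refine ⟨mem_univ _, Fin.ext ?_⟩
        unfold cls
        simp only
        rw [h, hmin]
      · refine ⟨mem_univ _, Fin.ext ?_⟩
        unfold cls
        simp only
        rw [h, ZMod.natAbs_valMinAbs_neg, hmin]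
  have hdiff : ((x : ℕ) : ZMod q) ≠ -((x : ℕ) : ZMod q) := by
    intro h
    have h1 := congrArg ZMod.val h
    rw [hxv, hnv] at h1
    omega
  unfold ZZ
  rw [hset, sum_pair hdiff]
  unfold AA S
  rw [hxv, hnv]
  have hq0 : (0 : ℝ) < q := by exact_mod_cast (by omega : 0 < q)
  have hx0 : (0 : ℝ) < x := by exact_mod_cast hx
  have hxq : (x : ℝ) < q := by exact_mod_cast (by omega : x < q)
  have s1 : Summable fun m : ℕ => 1 / (((x + q * m : ℕ) : ℝ)) ^ 3 := by
    have h1 := (Real.summable_one_div_nat_pow.2 (by norm_num : 1 < 3)).comp_injective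
      (i := fun m : ℕ => x + q * m) (fun a b h => by
        simp only at h
        have h2 : q * a = q * b := by omega
        exact Nat.eq_of_mul_eq_mul_left (by omega) h2)
    exact h1
  have s2 : Summable fun m : ℕ => 1 / (((q - x + q * m : ℕ) : ℝ)) ^ 3 := by
    have h1 := (Real.summable_one_div_nat_pow.2 (by norm_num : 1 < 3)).comp_injective
      (i := fun m : ℕ => q - x + q * m) (fun a b h => by
        simp only at h
        have h2 : q * a = q * b := by omega
        exact Nat.eq_of_mul_eq_mul_left (by omega) h2)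
    exact h1
  rw [← s1.tsum_add s2]
  refine tsum_congr fun m => ?_
  have e1 : ((x + q * m : ℕ) : ℝ) = (q : ℝ) * m + x := by
    push_cast
    ring
  have e2 : ((q - x + q * m : ℕ) : ℝ) = (q : ℝ) * m + (q - x) := by
    rw [Nat.cast_add, Nat.cast_sub (by omega : x ≤ q)]
    push_cast
    ring
  rw [e1, e2]

/-- Even periodic functions with values in a finite set of rational numbers. -/
theorem family {q : ℕ} (hq : 2 ≤ q) (V : Submodule ℚ ℝ) (hV : Module.Finite ℚ V) (T : Finset ℚ)
    (hT : 2 ≤ T.card) (F : Finset (ZMod q → ℚ))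
    (hF : ∀ f ∈ F, (∀ j, f j ∈ T) ∧ (∀ j, f (-j) = f j) ∧
      ∑' n : ℕ, (f (n : ZMod q) : ℝ) / (n : ℝ) ^ 3 ∈ V) :
    (F.card : ℝ) ≤ (T.card : ℝ) ^
      (((q / 2 + 1 : ℕ) : ℝ) + Module.finrank ℚ V + 1 - Real.log q / 16800) := by
  classical
  have : NeZero q := ⟨by omega⟩
  have hrank := rank_ge hq V hV (fun i : Fin (q / 2 + 1) => ZZ q i) (fun x h1 h2 => ZZ_eq h1 h2)
  set r := Module.finrank ℚ (Submodule.span ℚ
    (Set.range fun i : Fin (q / 2 + 1) => V.mkQ (ZZ q i))) with hr
  have hcard := coset_card (fun i : Fin (q / 2 + 1) => V.mkQ (ZZ q i)) 0 T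
    (F.image fun f => fun i : Fin (q / 2 + 1) => f ((i : ℕ) : ZMod q)) (by
      intro g hg
      rw [mem_image] at hg
      obtain ⟨f, hf, rfl⟩ := hg
      obtain ⟨h1, h2, h3⟩ := hF f hf
      refine ⟨fun i => h1 _, ?_⟩
      rw [L3_eq f h2] at h3
      have h4 : V.mkQ (∑ i : Fin (q / 2 + 1), (f ((i : ℕ) : ZMod q)) • ZZ q i) = 0 := by
        rw [← LinearMap.mem_ker, Submodule.ker_mkQ]
        simpa only [Rat.smul_def] using h3
      rw [map_sum] at h4
      simpa only [map_smul] using h4)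
  rw [card_image_of_injOn, Fintype.card_fin, ← hr] at hcard
  · have hT0 : (0 : ℝ) < T.card := by exact_mod_cast (by omega : 0 < T.card)
    have hT1 : (1 : ℝ) ≤ T.card := by exact_mod_cast (by omega : 1 ≤ T.card)
    have h1 : (F.card : ℝ) * (T.card : ℝ) ^ r ≤ (T.card : ℝ) ^ (q / 2 + 1) := by exact_mod_cast hcard
    calc (F.card : ℝ) ≤ (T.card : ℝ) ^ (q / 2 + 1) / (T.card : ℝ) ^ r := by
          rw [le_div_iff₀ (by positivity)]
          exact h1
      _ = (T.card : ℝ) ^ (((q / 2 + 1 : ℕ) : ℝ) - (r : ℝ)) := by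
          rw [Real.rpow_sub hT0, Real.rpow_natCast, Real.rpow_natCast]
      _ ≤ _ := by
          refine Real.rpow_le_rpow_of_exponent_le hT1 ?_
          linarith
  · intro f hf g hg hfg
    rw [Finset.mem_coe] at hf hg
    ext j
    rw [← cls_eq f (hF f hf).2.1 j, ← cls_eq g (hF g hg).2.1 j]
    exact congrFun hfg (cls q j)

end HZ89
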