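import Mathlib

/-!
# Row C1: linear independence criterion at one place (ONLY MATHLIB, STRONG, 60 min)

Plan: let `u_k = (z k · : Fin D → ℚ)`, `k ≤ K`.  By `hspan` the vector `e` is in the `ℚ`-span of the
`u_k` (otherwise there is a linear form which kills the span and not `e`:
`Submodule.exists_le_ker_of_notMem` or `Submodule.exists_dual_map_eq_bot_of_notMem`, with
`φ i = f (Pi.single i 1)`).
Choose a linearly independent subfamily of the `u_k` spanning the same space and extend it by standard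
unit vectors `Pi.single i 1` to a basis (`exists_linearIndependent`, `exists_linearIndependent_extension`
/ `LinearIndepOn`), i.e. a family `v : Fin D → (Fin D → ℤ)`, linearly independent over `ℚ`, each `v i`
is some `z k` (`k ≤ K`) or a unit vector, and `e = ∑ x_i v_i` with `x_i = 0` for the unit vectors.
`B` = matrix with rows `v i`, `det B ≠ 0` an integer, so `|det B| ≥ 1`.  Cramer: `det B * x_i` is the
determinant of `B` with row `i` replaced by `e` (`Matrix.updateRow`; or `Matrix.det_updateRow_sum` /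
`det_updateRow_add`, `det_updateRow_smul`, `det_updateRow_eq_zero`), at most
`D! * E * H^(D-1)` in absolute value (`Matrix.det_apply`, every product has one factor of the row `i`).
So `|∑ e_i ξ_i| = |∑ x_i (v_i · ξ)| ≤ D * (D! E H^(D-1)) * ε`.
-/

namespace HZ89

open Finset

/-- A determinant with one row bounded by `E` and the others by `H`. -/
theorem c1_det {D : ℕ} (M : Matrix (Fin D) (Fin D) ℤ) (j : Fin D) {H E : ℝ}
    (hj : ∀ i, |(M j i : ℝ)| ≤ E) (h : ∀ k, k ≠ j → ∀ i, |(M k i : ℝ)| ≤ H) :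
    |(M.det : ℝ)| ≤ D.factorial * (E * H ^ (D - 1)) := by
  rw [Matrix.det_apply', Int.cast_sum]
  have hb : ∀ σ : Equiv.Perm (Fin D),
      |(((Equiv.Perm.sign σ : ℤ) * ∏ i, M (σ i) i : ℤ) : ℝ)| ≤ E * H ^ (D - 1) := by
    intro σ
    rw [Int.cast_mul, abs_mul, Int.cast_prod, Finset.abs_prod]
    have hs : |(((Equiv.Perm.sign σ : ℤ) : ℤ) : ℝ)| = 1 := by
      rcases Int.units_eq_one_or (Equiv.Perm.sign σ) with h0 | h0 <;> rw [h0] <;> simp
    rw [hs, one_mul]
    have h1 : ∏ i, |(M (σ i) i : ℝ)| ≤ ∏ i, (if σ i = j then E else H) := by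
      refine Finset.prod_le_prod (fun i _ => abs_nonneg _) fun i _ => ?_
      by_cases h0 : σ i = j
      · rw [if_pos h0, h0]
        exact hj i
      · rw [if_neg h0]
        exact h _ h0 i
    refine h1.trans (le_of_eq ?_)
    rw [Equiv.prod_comp σ (fun i => if i = j then E else H), ← Finset.mul_prod_erase univ _ (mem_univ j),
      if_pos rfl]
    congr 1
    rw [Finset.prod_congr rfl (g := fun _ => H) (fun i hi => if_neg (Finset.ne_of_mem_erase hi)),
      Finset.prod_const, Finset.card_erase_of_mem (mem_univ j), Finset.card_univ, Fintype.card_fin]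
  calc |∑ σ : Equiv.Perm (Fin D), (((Equiv.Perm.sign σ : ℤ) * ∏ i, M (σ i) i : ℤ) : ℝ)|
      ≤ ∑ σ : Equiv.Perm (Fin D), |(((Equiv.Perm.sign σ : ℤ) * ∏ i, M (σ i) i : ℤ) : ℝ)| :=
        Finset.abs_sum_le_sum_abs _ _
    _ ≤ ∑ _σ : Equiv.Perm (Fin D), E * H ^ (D - 1) := Finset.sum_le_sum fun σ _ => hb σ
    _ = D.factorial * (E * H ^ (D - 1)) := by
        rw [Finset.sum_const, Finset.card_univ, Fintype.card_perm, Fintype.card_fin, nsmul_eq_mul]

/-- The integral vectors: the given ones and the unit vectors. -/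
def c1v {D : ℕ} (z : ℕ → Fin D → ℤ) : ℕ ⊕ Fin D → Fin D → ℤ
  | Sum.inl k => z k
  | Sum.inr i => Pi.single i 1

/-- The vector `e` is in the span. -/
theorem c1_span {D K : ℕ} (z : ℕ → Fin D → ℤ) (e : Fin D → ℤ)
    (hspan : ∀ φ : Fin D → ℚ, (∀ k ≤ K, ∑ i, φ i * z k i = 0) → ∑ i, φ i * e i = 0) :
    (fun i => (e i : ℚ)) ∈ Submodule.span ℚ ((fun (x : ℕ ⊕ Fin D) (i : Fin D) => (c1v z x i : ℚ)) ''
      (Sum.inl '' {k : ℕ | k ≤ K})) := by
  by_contra hne
  obtain ⟨f, hf, hker⟩ := Submodule.exists_le_ker_of_notMem hne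
  apply hf
  have hφ : ∀ x : Fin D → ℚ, f x = ∑ i, f (fun j => if i = j then 1 else 0) * x i := by
    intro x
    rw [LinearMap.pi_apply_eq_sum_univ f x]
    exact Finset.sum_congr rfl fun i _ => by rw [smul_eq_mul, mul_comm]
  rw [hφ]
  apply hspan
  intro k hk
  rw [← hφ (fun i => (z k i : ℚ))]
  have : (fun i => (z k i : ℚ)) ∈ LinearMap.ker f :=
    hker (Submodule.subset_span ⟨Sum.inl k, ⟨k, hk, rfl⟩, rfl⟩)
  exact this

/-- Basis and coordinates. -/
theorem c1_basis {D K : ℕ} (z : ℕ → Fin D → ℤ) (e : Fin D → ℤ)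
    (he : (fun i => (e i : ℚ)) ∈ Submodule.span ℚ ((fun (x : ℕ ⊕ Fin D) (i : Fin D) => (c1v z x i : ℚ)) ''
      (Sum.inl '' {k : ℕ | k ≤ K}))) :
    ∃ (σ : Fin D → ℕ ⊕ Fin D) (x : Fin D → ℚ),
      (∀ j, (∃ k ≤ K, σ j = Sum.inl k) ∨ (x j = 0 ∧ ∃ i, σ j = Sum.inr i)) ∧
      LinearIndependent ℚ (fun (j : Fin D) (i : Fin D) => (c1v z (σ j) i : ℚ)) ∧
      ∑ j, x j • (fun i => (c1v z (σ j) i : ℚ)) = (fun i => (e i : ℚ)) := by
  classical
  set v : ℕ ⊕ Fin D → Fin D → ℚ := fun x i => (c1v z x i : ℚ) with hv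
  set t0 : Set (ℕ ⊕ Fin D) := Sum.inl '' {k : ℕ | k ≤ K} with ht0
  obtain ⟨b0, hb0t, -, hb0s, hb0⟩ := exists_linearIndepOn_extension (K := ℚ) (v := v)
    (linearIndepOn_empty ℚ v) (Set.empty_subset t0)
  obtain ⟨b, hbt, hb0b, hbs, hb⟩ := exists_linearIndepOn_extension (K := ℚ) (v := v) hb0
    (hb0t.trans (Set.subset_union_left (t := Set.range Sum.inr)))
  -- the span of the second family is everything
  have htop : ⊤ ≤ Submodule.span ℚ (Set.range fun x : b => v x) := by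
    rw [← Set.image_eq_range]
    have h1 : ∀ i : Fin D, (Pi.single i 1 : Fin D → ℚ) ∈ Submodule.span ℚ (v '' b) := by
      intro i
      apply hbs
      refine ⟨Sum.inr i, Or.inr ⟨i, rfl⟩, ?_⟩
      funext j
      show ((Pi.single i (1:ℤ) : Fin D → ℤ) j : ℚ) = (Pi.single i (1:ℚ) : Fin D → ℚ) j
      by_cases h : j = i
      · subst h; simp
      · simp [h]
    intro y _
    have hy : y = ∑ i, y i • (Pi.single i 1 : Fin D → ℚ) := by
      funext j
      simp [Finset.sum_apply, Pi.single_apply]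
    rw [hy]
    exact Submodule.sum_mem _ fun i _ => Submodule.smul_mem _ _ (h1 i)
  let B : Module.Basis b ℚ (Fin D → ℚ) := Module.Basis.mk hb htop
  let eq : b ≃ Fin D := B.indexEquiv (Pi.basisFun ℚ (Fin D))
  have hin : Function.Injective fun j : Fin D => ((eq.symm j : b) : ℕ ⊕ Fin D) :=
    Subtype.val_injective.comp eq.symm.injective
  -- the coordinates
  have he2 : (fun i => (e i : ℚ)) ∈ Submodule.span ℚ (v '' b0) := by
    have h2 : Submodule.span ℚ (v '' t0) ≤ Submodule.span ℚ (v '' b0) := Submodule.span_le.mpr hb0s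
    exact h2 he
  obtain ⟨l, hl, hle⟩ := (Finsupp.mem_span_image_iff_linearCombination ℚ).mp he2
  rw [Finsupp.mem_supported] at hl
  refine ⟨fun j => ((eq.symm j : b) : ℕ ⊕ Fin D), fun j => l ((eq.symm j : b) : ℕ ⊕ Fin D), ?_, ?_, ?_⟩
  · intro j
    by_cases h0 : l ((eq.symm j : b) : ℕ ⊕ Fin D) = 0
    · rcases hbt (eq.symm j).2 with h1 | h1
      · obtain ⟨k, hk, hk2⟩ := h1
        exact Or.inl ⟨k, hk, hk2.symm⟩
      · obtain ⟨i, hi⟩ := h1
        exact Or.inr ⟨h0, i, hi.symm⟩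
    · have h1 : ((eq.symm j : b) : ℕ ⊕ Fin D) ∈ b0 := hl (Finsupp.mem_support_iff.mpr h0)
      obtain ⟨k, hk, hk2⟩ := hb0t h1
      exact Or.inl ⟨k, hk, hk2.symm⟩
  · exact hb.comp (fun j : Fin D => eq.symm j) eq.symm.injective
  · rw [← hle, Finsupp.linearCombination_apply, Finsupp.sum]
    show ∑ j, l ((eq.symm j : b) : ℕ ⊕ Fin D) • v ((eq.symm j : b) : ℕ ⊕ Fin D) = _
    rw [← Finset.sum_image (s := univ) (g := fun j : Fin D => ((eq.symm j : b) : ℕ ⊕ Fin D))
      (f := fun x => l x • v x) (fun a _ c _ h => hin h)]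
    symm
    apply Finset.sum_subset
    · intro x hx
      rw [Finset.mem_image]
      exact ⟨eq ⟨x, hb0b (hl hx)⟩, mem_univ _, by simp⟩
    · intro x _ hx
      rw [Finsupp.notMem_support_iff.mp hx, zero_smul]

theorem crit {D K : ℕ} (z : ℕ → Fin D → ℤ) (e : Fin D → ℤ)
    (hspan : ∀ φ : Fin D → ℚ, (∀ k ≤ K, ∑ i, φ i * z k i = 0) → ∑ i, φ i * e i = 0)
    (ξ : Fin D → ℝ) {H E ε : ℝ} (hH : 1 ≤ H) (hE : 0 ≤ E) (hε0 : 0 ≤ ε)
    (hz : ∀ k ≤ K, ∀ i, |(z k i : ℝ)| ≤ H) (he : ∀ i, |(e i : ℝ)| ≤ E)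
    (hε : ∀ k ≤ K, |∑ i, (z k i : ℝ) * ξ i| ≤ ε) :
    |∑ i, (e i : ℝ) * ξ i| ≤ D * D.factorial * E * H ^ (D - 1) * ε := by
  obtain ⟨σ, x, hσ, hli, hsum⟩ := c1_basis z e (c1_span z e hspan)
  -- the integral matrix
  set M : Matrix (Fin D) (Fin D) ℤ := fun j i => c1v z (σ j) i with hM
  set Q : Matrix (Fin D) (Fin D) ℚ := fun j i => (c1v z (σ j) i : ℚ) with hQ
  have hQM : Q = M.map (Int.cast : ℤ → ℚ) := rfl
  have hdetQ : Q.det = (M.det : ℚ) := by
    rw [hQM]
    exact (RingHom.map_det (Int.castRingHom ℚ) M).symm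
  have hunit : Q.det ≠ 0 := by
    have h1 : IsUnit Q := Matrix.linearIndependent_rows_iff_isUnit.mp hli
    exact ((Matrix.isUnit_iff_isUnit_det Q).mp h1).ne_zero
  have hdet1 : (1:ℝ) ≤ |(M.det : ℝ)| := by
    have h1 : M.det ≠ 0 := by
      intro h0
      apply hunit
      rw [hdetQ, h0, Int.cast_zero]
    have h2 := Int.one_le_abs h1
    exact_mod_cast h2
  -- bounds of the rows
  have hrow : ∀ j i, |(M j i : ℝ)| ≤ H := by
    intro j i
    rcases hσ j with ⟨k, hk, hk2⟩ | ⟨-, i0, hi0⟩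
    · simp only [hM, hk2]
      exact hz k hk i
    · simp only [hM, hi0]
      show |(((Pi.single i0 (1:ℤ) : Fin D → ℤ) i : ℤ) : ℝ)| ≤ H
      by_cases h : i = i0
      · subst h
        simpa using hH
      · rw [Pi.single_eq_of_ne h]
        simp
        linarith
  -- Cramer
  have hcr : ∀ j, |(x j : ℝ)| ≤ D.factorial * (E * H ^ (D - 1)) := by
    intro j
    have h1 := Matrix.det_updateRow_sum Q j x
    have h2 : (Q.updateRow j (∑ k, x k • Q k)) = (M.updateRow j e).map (Int.cast : ℤ → ℚ) := by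
      have h3 : (∑ k, x k • Q k) = fun i => (e i : ℚ) := hsum
      rw [h3]
      ext k i
      by_cases h : k = j
      · subst h
        simp
      · simp [Matrix.updateRow_ne h, hQM]
    have h4 : ((M.updateRow j e).det : ℚ) = x j * (M.det : ℚ) := by
      rw [← hdetQ, ← smul_eq_mul, ← h1, h2]
      exact (RingHom.map_det (Int.castRingHom ℚ) (M.updateRow j e))
    have h5 : ((M.updateRow j e).det : ℝ) = (x j : ℝ) * (M.det : ℝ) := by
      have h5' := congrArg (fun r : ℚ => (r : ℝ)) h4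
      simp only [Rat.cast_mul, Rat.cast_intCast] at h5'
      exact h5'
    have h6 : |((M.updateRow j e).det : ℝ)| ≤ D.factorial * (E * H ^ (D - 1)) := by
      apply c1_det _ j
      · intro i
        rw [Matrix.updateRow_self]
        exact he i
      · intro k hk i
        rw [Matrix.updateRow_ne hk]
        exact hrow k i
    rw [h5, abs_mul] at h6
    have h7 : |(x j : ℝ)| * 1 ≤ |(x j : ℝ)| * |(M.det : ℝ)| :=
      mul_le_mul_of_nonneg_left hdet1 (abs_nonneg _)
    linarith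
  -- the sum
  have hei : ∀ i, (e i : ℝ) = ∑ j, (x j : ℝ) * (M j i : ℝ) := by
    intro i
    have h1 := congrFun hsum i
    simp only [Finset.sum_apply, Pi.smul_apply, smul_eq_mul] at h1
    have h2 := congrArg (Rat.cast : ℚ → ℝ) h1
    push_cast at h2
    exact h2.symm
  have hS : ∑ i, (e i : ℝ) * ξ i = ∑ j, (x j : ℝ) * ∑ i, (M j i : ℝ) * ξ i := by
    simp_rw [hei, Finset.sum_mul, Finset.mul_sum]
    rw [Finset.sum_comm]
    exact Finset.sum_congr rfl fun j _ => Finset.sum_congr rfl fun i _ => by ring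
  have hpos : 0 ≤ D.factorial * (E * H ^ (D - 1)) := by positivity
  rw [hS]
  calc |∑ j, (x j : ℝ) * ∑ i, (M j i : ℝ) * ξ i| ≤ ∑ j, |(x j : ℝ) * ∑ i, (M j i : ℝ) * ξ i| :=
        Finset.abs_sum_le_sum_abs _ _
    _ ≤ ∑ _j : Fin D, D.factorial * (E * H ^ (D - 1)) * ε := by
        refine Finset.sum_le_sum fun j _ => ?_
        rw [abs_mul]
        rcases hσ j with ⟨k, hk, hk2⟩ | ⟨h0, -⟩
        · have h1 : |∑ i, (M j i : ℝ) * ξ i| ≤ ε := by
            simp only [hM, hk2]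
            exact hε k hk
          exact mul_le_mul (hcr j) h1 (abs_nonneg _) hpos
        · rw [h0, Rat.cast_zero, abs_zero, zero_mul]
          exact mul_nonneg hpos hε0
    _ = D * D.factorial * E * H ^ (D - 1) * ε := by
        rw [Finset.sum_const, Finset.card_univ, Fintype.card_fin, nsmul_eq_mul]
        ring

end HZ89
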