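import Pool.Agent.LibHZ89.A3b

/-!
# The difference polynomial (definitions, no row)
-/

namespace HZ89

open Finset Polynomial

/-- the two partial sums which are missing in the linear form at the pole `j` -/
noncomputable def ps (q n j : ℕ) : ℝ :=
  ∑ m ∈ range (j / q + 1), 1 / ((q : ℝ) * m + (j % q : ℕ)) ^ 3 +
    ∑ m ∈ range (n - j / q), 1 / ((q : ℝ) * m + (q - (j % q : ℕ))) ^ 3

/-- `y (q n - y) / q²` as a polynomial in `y` -/
noncomputable def omP (q n : ℕ) : ℝ[X] := C (1 / (q : ℝ) ^ 2) * X * (C ((q : ℝ) * n) - X)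

/-- `a(y) b(y+q) - a(y+q) b(y) = ρ(y) a(y) a(y+q)`, `ρ(y) = (L-y)⁻³ - (y+q)⁻³`, cleared of
denominators, `L = q n` -/
noncomputable def dif (q n : ℕ) (a b : ℝ[X]) : ℝ[X] :=
  (C ((q : ℝ) * n) - X) ^ 3 * (X + C (q : ℝ)) ^ 3 *
      (a * b.comp (X + C (q : ℝ)) - a.comp (X + C (q : ℝ)) * b) -
    ((X + C (q : ℝ)) ^ 3 - (C ((q : ℝ) * n) - X) ^ 3) * (a * a.comp (X + C (q : ℝ)))

end HZ89
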