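import Pool.Agent.LibHZ89.F1
import Pool.Agent.LibHZ89.A2
import Pool.Agent.LibHZ89.Z0

/-!
# Row F3: integral linear forms in a basis of `V` (MEDIUM, 40 min)

Plan: `ell_eq` (row F1; `S - sum₁ - sum₂ = S - ps`); `D₁ (S q x - ps) = ∑ (b x i - e i ps) ξ i`.
`Λ = lcmUpto (q n)`; all `q m + j % q` (`m ≤ j/q`) and `q m + (q - j % q)` (`m < n - j/q`) are between
`1` and `q n` (`j < q n`, `mem_P`), so `Λ^3 * ps q n j` is an integer (`dvd_lcm'`, `q ≥ 1`), and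
`0 ≤ ps q n j ≤ n + 1` (every term is at most `1`, there are `(j/q+1) + (n - j/q)` terms).
-/

namespace HZ89

open Finset

theorem f3_frac {Λ d : ℕ} (hd : 1 ≤ d) (h : d ∣ Λ) :
    ∃ m : ℤ, (Λ : ℝ) ^ 3 * (1 / (d : ℝ) ^ 3) = m := by
  obtain ⟨k, rfl⟩ := h
  refine ⟨(k : ℤ) ^ 3, ?_⟩
  have hd0 : (d : ℝ) ≠ 0 := by
    have : (0 : ℝ) < d := by exact_mod_cast hd
    exact this.ne'
  push_cast
  field_simp

theorem f3_sum {ι : Type} (s : Finset ι) (f : ι → ℝ) (h : ∀ i ∈ s, ∃ m : ℤ, f i = m) :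
    ∃ m : ℤ, ∑ i ∈ s, f i = m := by
  choose! M hM using h
  refine ⟨∑ i ∈ s, M i, ?_⟩
  rw [Int.cast_sum]
  exact Finset.sum_congr rfl hM

theorem ps_int {q n : ℕ} {I : Finset ℕ} (hq : 1 ≤ q) (hI : ∀ x ∈ I, 1 ≤ x ∧ 2 * x < q) {j : ℕ}
    (hj : j ∈ P q n I) : ∃ m : ℤ, (Nat.lcmUpto (q * n) : ℝ) ^ 3 * ps q n j = m := by
  obtain ⟨hj1, hjL, hjI, hj2, hjx⟩ := mem_P hI hj
  have hin : j / q < n := Nat.div_lt_of_lt_mul hjL
  have hdm : q * (j / q) + j % q = j := Nat.div_add_mod j q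
  have h1 : ∃ k : ℤ, ∑ m ∈ range (j / q + 1), (Nat.lcmUpto (q * n) : ℝ) ^ 3 *
      (1 / ((q : ℝ) * m + (j % q : ℕ)) ^ 3) = (k : ℝ) := by
    apply f3_sum
    intro m hm
    have hm' : m ≤ j / q := Nat.lt_succ_iff.1 (mem_range.1 hm)
    have h2 : q * m ≤ q * (j / q) := Nat.mul_le_mul_left q hm'
    obtain ⟨k, hk⟩ := f3_frac (Λ := Nat.lcmUpto (q * n)) (d := q * m + j % q)
      (le_trans hjx (Nat.le_add_left _ _))
      (dvd_lcm' (le_trans hjx (Nat.le_add_left _ _)) (by omega))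
    refine ⟨k, ?_⟩
    rw [← hk]
    push_cast
    rfl
  have h3 : ∃ k : ℤ, ∑ m ∈ range (n - j / q), (Nat.lcmUpto (q * n) : ℝ) ^ 3 *
      (1 / ((q : ℝ) * m + (q - (j % q : ℕ))) ^ 3) = (k : ℝ) := by
    apply f3_sum
    intro m hm
    have hm' : m < n - j / q := mem_range.1 hm
    have hxq : j % q < q := Nat.mod_lt _ (by omega)
    have h2 : q * (m + 1) ≤ q * n := Nat.mul_le_mul_left q (Nat.succ_le_of_lt (lt_of_lt_of_le hm' (Nat.sub_le _ _)))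
    have h4 : q * (m + 1) = q * m + q := by ring
    have h5 : 1 ≤ q * m + (q - j % q) := le_trans (by omega : 1 ≤ q - j % q) (Nat.le_add_left _ _)
    obtain ⟨k, hk⟩ := f3_frac (Λ := Nat.lcmUpto (q * n)) (d := q * m + (q - j % q)) h5
      (dvd_lcm' h5 (by have := Nat.sub_le q (j % q); omega))
    refine ⟨k, ?_⟩
    rw [← hk]
    push_cast [Nat.cast_sub hxq.le]
    rfl
  obtain ⟨a, ha⟩ := h1
  obtain ⟨b, hb⟩ := h3
  refine ⟨a + b, ?_⟩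
  rw [Int.cast_add, ← ha, ← hb, ps, mul_add, Finset.mul_sum, Finset.mul_sum]

theorem ps_le {q n : ℕ} {I : Finset ℕ} (hq : 1 ≤ q) (hI : ∀ x ∈ I, 1 ≤ x ∧ 2 * x < q) {j : ℕ}
    (hj : j ∈ P q n I) : 0 ≤ ps q n j ∧ ps q n j ≤ n + 1 := by
  obtain ⟨hj1, hjL, hjI, hj2, hjx⟩ := mem_P hI hj
  have hin : j / q < n := Nat.div_lt_of_lt_mul hjL
  have hq0 : (0 : ℝ) < q := by exact_mod_cast hq
  have hx1 : (1 : ℝ) ≤ (j % q : ℕ) := by exact_mod_cast hjx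
  have hxq : j % q + 1 ≤ q := Nat.mod_lt _ (by omega)
  have hx2 : (1 : ℝ) ≤ (q : ℝ) - (j % q : ℕ) := by
    have : ((j % q : ℕ) : ℝ) + 1 ≤ q := by exact_mod_cast hxq
    linarith
  have hone : ∀ y : ℝ, 1 ≤ y → ∀ m : ℕ, 0 ≤ 1 / ((q : ℝ) * m + y) ^ 3 ∧
      1 / ((q : ℝ) * m + y) ^ 3 ≤ 1 := by
    intro y hy m
    have hm : (0 : ℝ) ≤ (q : ℝ) * m := by positivity
    have h1 : (1 : ℝ) ≤ (q : ℝ) * m + y := by linarith
    refine ⟨by positivity, ?_⟩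
    rw [div_le_one (by positivity)]
    exact one_le_pow₀ h1
  unfold ps
  constructor
  · exact add_nonneg (Finset.sum_nonneg fun m _ => (hone _ hx1 m).1)
      (Finset.sum_nonneg fun m _ => (hone _ hx2 m).1)
  · have h1 : ∑ m ∈ range (j / q + 1), 1 / ((q : ℝ) * m + (j % q : ℕ)) ^ 3 ≤
        ((j / q + 1 : ℕ) : ℝ) := by
      refine (Finset.sum_le_sum fun m _ => (hone _ hx1 m).2).trans ?_
      simp
    have h2 : ∑ m ∈ range (n - j / q), 1 / ((q : ℝ) * m + (q - (j % q : ℕ))) ^ 3 ≤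
        ((n - j / q : ℕ) : ℝ) := by
      refine (Finset.sum_le_sum fun m _ => (hone _ hx2 m).2).trans ?_
      simp
    have h3 : ((j / q + 1 : ℕ) : ℝ) + ((n - j / q : ℕ) : ℝ) = n + 1 := by
      have : (j / q + 1) + (n - j / q) = n + 1 := by omega
      exact_mod_cast this
    linarith

theorem forms' {q n : ℕ} {I : Finset ℕ} (hq : 1 ≤ q) (hn : 1 ≤ n)
    (hI : ∀ x ∈ I, 1 ≤ x ∧ 2 * x < q) {D : ℕ} (ξ : Fin D → ℝ) (b : ℕ → Fin D → ℤ)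
    (e : Fin D → ℤ) {D₁ B : ℕ} (hb : ∀ x ∈ I, (D₁ : ℝ) * S q x = ∑ i, (b x i : ℝ) * ξ i)
    (he : (D₁ : ℝ) = ∑ i, (e i : ℝ) * ξ i) (hB : ∀ x ∈ I, ∀ i, |b x i| ≤ B)
    (heB : ∀ i, |e i| ≤ B) (c : ℕ → ℤ) :
    ∃ z : Fin D → ℤ,
      (∀ i, (z i : ℝ) = (Nat.lcmUpto (q * n) : ℝ) ^ 3 *
        ∑ j ∈ P q n I, (c j : ℝ) * ((b (j % q) i : ℝ) - (e i : ℝ) * ps q n j)) ∧
      (D₁ : ℝ) * (Nat.lcmUpto (q * n) : ℝ) ^ 3 *
        (1 / (q : ℝ) ^ 3 * ell n (P q n I) (om q n) fun j => (c j : ℝ)) = ∑ i, (z i : ℝ) * ξ i ∧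
      ∀ i, |(z i : ℝ)| ≤ (Nat.lcmUpto (q * n) : ℝ) ^ 3 * B * (n + 2) * ∑ j ∈ P q n I, |(c j : ℝ)| := by
  have hps : ∀ j ∈ P q n I, ∃ m : ℤ, (Nat.lcmUpto (q * n) : ℝ) ^ 3 * ps q n j = m :=
    fun j hj => ps_int hq hI hj
  choose! M hM using hps
  have hz : ∀ i, ((∑ j ∈ P q n I, c j * ((Nat.lcmUpto (q * n) : ℤ) ^ 3 * b (j % q) i -
      e i * M j) : ℤ) : ℝ) = (Nat.lcmUpto (q * n) : ℝ) ^ 3 *
        ∑ j ∈ P q n I, (c j : ℝ) * ((b (j % q) i : ℝ) - (e i : ℝ) * ps q n j) := by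
    intro i
    rw [Int.cast_sum, Finset.mul_sum]
    refine Finset.sum_congr rfl fun j hj => ?_
    push_cast
    rw [← hM j hj]
    ring
  refine ⟨fun i => ∑ j ∈ P q n I, c j * ((Nat.lcmUpto (q * n) : ℤ) ^ 3 * b (j % q) i -
    e i * M j), hz, ?_, ?_⟩
  · rw [ell_eq hq hn hI fun j => (c j : ℝ)]
    have h1 : ∀ j ∈ P q n I, (D₁ : ℝ) * (S q (j % q) -
        ∑ m ∈ range (j / q + 1), 1 / ((q : ℝ) * m + (j % q : ℕ)) ^ 3 -
        ∑ m ∈ range (n - j / q), 1 / ((q : ℝ) * m + (q - (j % q : ℕ))) ^ 3) =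
        ∑ i, ((b (j % q) i : ℝ) - (e i : ℝ) * ps q n j) * ξ i := by
      intro j hj
      obtain ⟨hj1, hjL, hjI, hj2, hjx⟩ := mem_P hI hj
      have h2 : ∑ i, ((b (j % q) i : ℝ) - (e i : ℝ) * ps q n j) * ξ i =
          ∑ i, (b (j % q) i : ℝ) * ξ i - (∑ i, (e i : ℝ) * ξ i) * ps q n j := by
        rw [Finset.sum_mul, ← Finset.sum_sub_distrib]
        exact Finset.sum_congr rfl fun i _ => by ring
      rw [h2, ← hb _ hjI, ← he]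
      unfold ps
      ring
    calc (D₁ : ℝ) * (Nat.lcmUpto (q * n) : ℝ) ^ 3 * ∑ j ∈ P q n I, (c j : ℝ) * (S q (j % q) -
          ∑ m ∈ range (j / q + 1), 1 / ((q : ℝ) * m + (j % q : ℕ)) ^ 3 -
          ∑ m ∈ range (n - j / q), 1 / ((q : ℝ) * m + (q - (j % q : ℕ))) ^ 3)
        = ∑ j ∈ P q n I, (Nat.lcmUpto (q * n) : ℝ) ^ 3 * ((c j : ℝ) * ((D₁ : ℝ) * (S q (j % q) -
          ∑ m ∈ range (j / q + 1), 1 / ((q : ℝ) * m + (j % q : ℕ)) ^ 3 -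
          ∑ m ∈ range (n - j / q), 1 / ((q : ℝ) * m + (q - (j % q : ℕ))) ^ 3))) := by
          rw [Finset.mul_sum]
          exact Finset.sum_congr rfl fun j _ => by ring
      _ = ∑ j ∈ P q n I, ∑ i, (Nat.lcmUpto (q * n) : ℝ) ^ 3 * ((c j : ℝ) *
            ((b (j % q) i : ℝ) - (e i : ℝ) * ps q n j)) * ξ i := by
          refine Finset.sum_congr rfl fun j hj => ?_
          rw [h1 j hj, Finset.mul_sum, Finset.mul_sum]
          exact Finset.sum_congr rfl fun i _ => by ring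
      _ = ∑ i, ∑ j ∈ P q n I, (Nat.lcmUpto (q * n) : ℝ) ^ 3 * ((c j : ℝ) *
            ((b (j % q) i : ℝ) - (e i : ℝ) * ps q n j)) * ξ i := Finset.sum_comm
      _ = _ := by
          refine Finset.sum_congr rfl fun i _ => ?_
          rw [hz i, Finset.mul_sum, Finset.sum_mul]
  · intro i
    rw [hz i, abs_mul, abs_of_nonneg (by positivity : (0 : ℝ) ≤ (Nat.lcmUpto (q * n) : ℝ) ^ 3)]
    have h1 : |∑ j ∈ P q n I, (c j : ℝ) * ((b (j % q) i : ℝ) - (e i : ℝ) * ps q n j)| ≤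
        (B : ℝ) * (n + 2) * ∑ j ∈ P q n I, |(c j : ℝ)| := by
      refine (Finset.abs_sum_le_sum_abs _ _).trans ?_
      rw [Finset.mul_sum]
      refine Finset.sum_le_sum fun j hj => ?_
      obtain ⟨hj1, hjL, hjI, hj2, hjx⟩ := mem_P hI hj
      obtain ⟨hp0, hp1⟩ := ps_le hq hI hj
      have h2 : |(b (j % q) i : ℝ)| ≤ B := by exact_mod_cast hB _ hjI i
      have h3 : |(e i : ℝ)| ≤ B := by exact_mod_cast heB i
      have hB0 : (0 : ℝ) ≤ B := Nat.cast_nonneg B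
      have h4 : |(b (j % q) i : ℝ) - (e i : ℝ) * ps q n j| ≤ (B : ℝ) * (n + 2) := by
        refine (abs_sub _ _).trans ?_
        rw [abs_mul, abs_of_nonneg hp0]
        have h5 : |(e i : ℝ)| * ps q n j ≤ B * (n + 1) := mul_le_mul h3 hp1 hp0 hB0
        nlinarith
      rw [abs_mul, mul_comm]
      exact mul_le_mul_of_nonneg_right h4 (abs_nonneg _)
    calc (Nat.lcmUpto (q * n) : ℝ) ^ 3 *
          |∑ j ∈ P q n I, (c j : ℝ) * ((b (j % q) i : ℝ) - (e i : ℝ) * ps q n j)|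
        ≤ (Nat.lcmUpto (q * n) : ℝ) ^ 3 * ((B : ℝ) * (n + 2) * ∑ j ∈ P q n I, |(c j : ℝ)|) :=
          mul_le_mul_of_nonneg_left h1 (by positivity)
      _ = _ := by ring

end HZ89
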