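import Mathlib

/-!
# Row G1: small linear forms in `1` and `ξ`

Plan: the integers `α_n β_{n+1} - α_{n+1} β_n = (α_n + β_n ξ) β_{n+1} - (α_{n+1} + β_{n+1} ξ) β_n` tend
to zero, so they are zero for `n ≥ n₀`; all `(α_n, β_n)`, `n ≥ n₀`, are integral multiples `k_n (a, b)`
of one primitive vector, `|α_n + β_n ξ| = |k_n| |a + b ξ| ≥ |a + b ξ| > 0`.
-/

namespace HZ89

open Filter Topology

theorem no_forms (ξ : ℝ) (α β : ℕ → ℤ) (hne : ∀ n, (α n : ℝ) + β n * ξ ≠ 0)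
    (h0 : Tendsto (fun n => (α n : ℝ) + β n * ξ) atTop (𝓝 0))
    (h1 : Tendsto (fun n => ((α n : ℝ) + β n * ξ) * β (n + 1)) atTop (𝓝 0))
    (h2 : Tendsto (fun n => ((α (n + 1) : ℝ) + β (n + 1) * ξ) * β n) atTop (𝓝 0)) : False := by
  have hD : Tendsto (fun n => ((α n * β (n + 1) - α (n + 1) * β n : ℤ) : ℝ)) atTop (𝓝 0) := by
    have h3 := h1.sub h2
    rw [sub_zero] at h3
    refine h3.congr (fun n => ?_)
    push_cast
    ring
  have habs : ∀ (f : ℕ → ℝ), Tendsto f atTop (𝓝 0) → ∀ δ : ℝ, 0 < δ → ∀ᶠ n in atTop, |f n| < δ := by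
    intro f hf δ hδ
    filter_upwards [hf.eventually (Metric.ball_mem_nhds 0 hδ)] with n hn
    simpa [Real.dist_eq] using hn
  have hE : ∀ᶠ n in atTop, α n * β (n + 1) = α (n + 1) * β n := by
    filter_upwards [habs _ hD 1 one_pos] with n hn
    have h3 : |α n * β (n + 1) - α (n + 1) * β n| < 1 := by exact_mod_cast hn
    exact sub_eq_zero.mp (Int.abs_lt_one_iff.mp h3)
  obtain ⟨n₀, hn₀⟩ := eventually_atTop.mp hE
  by_cases hβ : ∃ n, n₀ ≤ n ∧ β n = 0
  · obtain ⟨n₁, hn₁, hb⟩ := hβ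
    have hz : ∀ m, n₁ ≤ m → β m = 0 := by
      intro m hm
      induction m, hm using Nat.le_induction with
      | base => exact hb
      | succ m hm ih =>
        have h3 := hn₀ m (le_trans hn₁ hm)
        rw [ih, mul_zero] at h3
        rcases mul_eq_zero.mp h3 with h4 | h4
        · exact absurd (by rw [h4, ih]; simp) (hne m)
        · exact h4
    obtain ⟨m, hm, hm1⟩ := ((habs _ h0 1 one_pos).and (eventually_ge_atTop n₁)).exists
    have h3 := hne m
    simp only [hz m hm1, Int.cast_zero, zero_mul, add_zero] at hm h3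
    have h4 : |α m| < 1 := by exact_mod_cast hm
    exact h3 (by exact_mod_cast Int.abs_lt_one_iff.mp h4)
  · push Not at hβ
    have hp : ∀ m, n₀ ≤ m → α m * β n₀ = α n₀ * β m := by
      intro m hm
      induction m, hm using Nat.le_induction with
      | base => rfl
      | succ m hm ih =>
        have h3 := hn₀ m hm
        refine mul_left_cancel₀ (hβ m hm) ?_
        calc β m * (α (m + 1) * β n₀) = (α (m + 1) * β m) * β n₀ := by ring
          _ = (α m * β n₀) * β (m + 1) := by rw [← h3]; ring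
          _ = β m * (α n₀ * β (m + 1)) := by rw [ih]; ring
    have hb0 : 0 < |(β n₀ : ℝ)| := abs_pos.mpr (by exact_mod_cast hβ n₀ le_rfl)
    have hL0 : 0 < |(α n₀ : ℝ) + β n₀ * ξ| := abs_pos.mpr (hne n₀)
    obtain ⟨m, hm, hm1⟩ := ((habs _ h0 (|(α n₀ : ℝ) + β n₀ * ξ| / |(β n₀ : ℝ)|)
      (div_pos hL0 hb0)).and (eventually_ge_atTop n₀)).exists
    have h3 : ((α m : ℝ) + β m * ξ) * β n₀ = β m * ((α n₀ : ℝ) + β n₀ * ξ) := by
      have h4 : (α m : ℝ) * β n₀ = α n₀ * β m := by exact_mod_cast hp m hm1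
      linear_combination h4
    have h5 : |(α m : ℝ) + β m * ξ| * |(β n₀ : ℝ)| = |(β m : ℝ)| * |(α n₀ : ℝ) + β n₀ * ξ| := by
      rw [← abs_mul, ← abs_mul, h3]
    have h6 : (1 : ℝ) ≤ |(β m : ℝ)| := by
      have := Int.one_le_abs (hβ m hm1)
      exact_mod_cast this
    rw [lt_div_iff₀ hb0, h5] at hm
    nlinarith

/-- growth -/
theorem tendsto_growth (C : ℝ) (K a b : ℕ) (h : a < b) :
    Tendsto (fun n : ℕ => C * ((n : ℝ) + 2) ^ K * 2 ^ (a * n) / 2 ^ (b * n)) atTop (𝓝 0) := by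
  have hr0 : (0 : ℝ) < 2 ^ a / 2 ^ b := by positivity
  have hr1 : (2 : ℝ) ^ a / 2 ^ b < 1 := by
    rw [div_lt_one (by positivity)]
    exact pow_lt_pow_right₀ (by norm_num) h
  have h1 := (tendsto_pow_const_mul_const_pow_of_lt_one K hr0.le hr1).comp (tendsto_add_atTop_nat 2)
  have h2 := h1.const_mul (C / ((2 : ℝ) ^ a / 2 ^ b) ^ 2)
  rw [mul_zero] at h2
  refine h2.congr (fun n => ?_)
  have h3 : (2 : ℝ) ^ (a * n) / 2 ^ (b * n) = (2 ^ a / 2 ^ b) ^ n := by
    rw [div_pow, ← pow_mul, ← pow_mul]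
  rw [mul_div_assoc, h3]
  generalize (2 : ℝ) ^ a / 2 ^ b = r at hr0
  simp only [Function.comp_apply, Nat.cast_add, Nat.cast_ofNat]
  rw [pow_add r n 2]
  field_simp

end HZ89
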