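import Pool.Agent.LibHZ89.Z1

/-!
# Row Z1b: the difference polynomial is zero (MEDIUM, 40 min)

Plan: by `dif_eval` and `dif_symm` the polynomial vanishes at the `j ∈ P q (n-1) I` and at the
`q n - q - j`; these are `2 * I.card * (n - 1)` different real numbers (`card_P` for `n - 1`;
`q (n-1) - j ≡ - j mod q`, and `0 < j % q < q / 2`: the natural number `q * (n - 1) - j` has
residue `q - j % q`, which is not below `q / 2`).  Degree: `natDegree (M.comp (omP q n)) ≤ 2 dM`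
(`natDegree_comp_le`), shifts `X + C q` keep the degree (`natDegree_comp`), so
`natDegree ≤ max (6 + 2 dM + 2 dΓ) (3 + 4 dM)`; `Polynomial.eq_zero_of_natDegree_lt_card_of_eval_eq_zero'`.
-/

namespace HZ89

open Finset Polynomial

variable {q n : ℕ} {I : Finset ℕ}

private theorem z1b_comp {M : ℝ[X]} {d : ℕ} (h : M.natDegree ≤ d) :
    (M.comp (omP q n)).natDegree ≤ 2 * d := by
  refine natDegree_comp_le.trans ?_
  calc M.natDegree * (omP q n).natDegree ≤ d * 2 := Nat.mul_le_mul h omP_natDegree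
    _ = 2 * d := by ring

private theorem z1b_shift {M : ℝ[X]} {d : ℕ} (h : M.natDegree ≤ d) :
    (M.comp (X + C (q : ℝ))).natDegree ≤ d := by
  rw [natDegree_comp, natDegree_X_add_C, mul_one]
  exact h

theorem dif_natDegree {M Γ : ℝ[X]} {dM dΓ : ℕ} (hM : M.natDegree ≤ dM) (hΓ : Γ.natDegree ≤ dΓ) :
    (dif q n (M.comp (omP q n)) (Γ.comp (omP q n))).natDegree ≤
      max (6 + (2 * dM + 2 * dΓ)) (3 + 4 * dM) := by
  have hL : (C ((q : ℝ) * n) - X : ℝ[X]).natDegree ≤ 1 := by compute_degree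
  have hX : (X + C (q : ℝ) : ℝ[X]).natDegree ≤ 1 := by compute_degree
  have hL3 : ((C ((q : ℝ) * n) - X : ℝ[X]) ^ 3).natDegree ≤ 3 := by
    simpa using natDegree_pow_le_of_le 3 hL
  have hX3 : ((X + C (q : ℝ) : ℝ[X]) ^ 3).natDegree ≤ 3 := by
    simpa using natDegree_pow_le_of_le 3 hX
  have ha := z1b_comp (q := q) (n := n) hM
  have hb := z1b_comp (q := q) (n := n) hΓ
  have ha' := z1b_shift (q := q) ha
  have hb' := z1b_shift (q := q) hb
  unfold dif
  refine (natDegree_sub_le _ _).trans (max_le_max ?_ ?_)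
  · have h1 : ((C ((q : ℝ) * n) - X : ℝ[X]) ^ 3 * (X + C (q : ℝ)) ^ 3).natDegree ≤ 3 + 3 :=
      natDegree_mul_le_of_le hL3 hX3
    have h2 : (M.comp (omP q n) * (Γ.comp (omP q n)).comp (X + C (q : ℝ)) -
        (M.comp (omP q n)).comp (X + C (q : ℝ)) * Γ.comp (omP q n)).natDegree ≤
        2 * dM + 2 * dΓ := by
      refine (natDegree_sub_le _ _).trans (max_le ?_ ?_)
      · exact natDegree_mul_le_of_le ha hb'
      · exact natDegree_mul_le_of_le ha' hb
    exact natDegree_mul_le_of_le h1 h2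
  · have h1 : ((X + C (q : ℝ) : ℝ[X]) ^ 3 - (C ((q : ℝ) * n) - X) ^ 3).natDegree ≤ 3 :=
      (natDegree_sub_le _ _).trans (max_le hX3 hL3)
    have h2 : (M.comp (omP q n) * (M.comp (omP q n)).comp (X + C (q : ℝ))).natDegree ≤
        4 * dM := by
      refine (natDegree_mul_le_of_le ha ha').trans ?_
      omega
    exact natDegree_mul_le_of_le h1 h2

private theorem z1b_disj (hI : ∀ x ∈ I, 1 ≤ x ∧ 2 * x < q) {m j j' : ℕ} (hj : j ∈ P q m I)
    (hj' : j' ∈ P q m I) : j + j' ≠ q * m := by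
  intro h
  obtain ⟨-, -, -, h1, h2⟩ := mem_P hI hj
  obtain ⟨-, -, -, h3, h4⟩ := mem_P hI hj'
  have h5 : (j + j') % q = 0 := by rw [h]; exact Nat.mul_mod_right q m
  rw [Nat.add_mod, Nat.mod_eq_of_lt (by omega)] at h5
  omega

theorem dif_eq_zero (hq : 1 ≤ q) (hn : 1 ≤ n) (hI : ∀ x ∈ I, 1 ≤ x ∧ 2 * x < q) {M Γ : ℝ[X]}
    {β : ℕ → ℝ}
    (h : ∀ j ∈ P q n I, Γ.eval (om q n j) = (β (j % q) - ps q n j) * M.eval (om q n j))
    {dM dΓ : ℕ} (hM : M.natDegree ≤ dM) (hΓ : Γ.natDegree ≤ dΓ)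
    (h1 : 6 + (2 * dM + 2 * dΓ) < 2 * (I.card * (n - 1))) (h2 : 3 + 4 * dM < 2 * (I.card * (n - 1))) :
    dif q n (M.comp (omP q n)) (Γ.comp (omP q n)) = 0 := by
  classical
  set s₁ : Finset ℝ := (P q (n - 1) I).image fun j : ℕ => (j : ℝ) with hs₁
  set s₂ : Finset ℝ := (P q (n - 1) I).image fun j : ℕ => (q : ℝ) * n - q - j with hs₂
  have hc : (P q (n - 1) I).card = I.card * (n - 1) := card_P hq hI
  have c1 : s₁.card = I.card * (n - 1) := by
    rw [hs₁, Finset.card_image_of_injective _ Nat.cast_injective, hc]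
  have c2 : s₂.card = I.card * (n - 1) := by
    rw [hs₂, Finset.card_image_of_injective, hc]
    intro a b hab
    have h3 : (q : ℝ) * n - q - a = (q : ℝ) * n - q - b := hab
    have h4 : (a : ℝ) = b := by linarith
    exact_mod_cast h4
  have hdis : Disjoint s₁ s₂ := by
    rw [Finset.disjoint_left]
    intro y hy hy'
    rw [hs₁, Finset.mem_image] at hy
    rw [hs₂, Finset.mem_image] at hy'
    obtain ⟨j, hj, rfl⟩ := hy
    obtain ⟨j', hj', hjj⟩ := hy'
    refine z1b_disj hI hj hj' ?_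
    obtain ⟨m, rfl⟩ : ∃ m, n = m + 1 := ⟨n - 1, by omega⟩
    have h3 : ((j + j' : ℕ) : ℝ) = ((q * m : ℕ) : ℝ) := by
      push_cast at hjj ⊢
      linarith
    rw [Nat.add_sub_cancel]
    exact_mod_cast h3
  refine eq_zero_of_natDegree_lt_card_of_eval_eq_zero' _ (s₁ ∪ s₂) ?_ ?_
  · intro y hy
    rcases Finset.mem_union.1 hy with hy | hy
    · rw [hs₁, Finset.mem_image] at hy
      obtain ⟨j, hj, rfl⟩ := hy
      exact dif_eval hq hn h hj
    · rw [hs₂, Finset.mem_image] at hy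
      obtain ⟨j, hj, rfl⟩ := hy
      rw [dif_symm, dif_eval hq hn h hj, neg_zero]
  · rw [Finset.card_union_of_disjoint hdis, c1, c2]
    refine lt_of_le_of_lt (dif_natDegree hM hΓ) ?_
    refine max_lt ?_ ?_
    · omega
    · omega

end HZ89
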