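import Pool.Agent.LibHZ89.Z0

/-!
# Row Z2: no rational function has the difference `(L - y)⁻³ - (y + q)⁻³` (STRONG, 50 min)

Plan: `L = q n`, `g(y) = b(y) / a(y)`, `ρ(y) = 1/(L-y)^3 - 1/(y+q)^3`.  Evaluate `h`: for real `y` with
`y ≠ L`, `y ≠ -q`, `a(y) ≠ 0`, `a(y+q) ≠ 0`: `g(y+q) - g(y) = ρ(y)`.
`a` has finitely many roots (`Polynomial.roots`, or `Polynomial.bddAbove..`; e.g.
`(a.rootSet_finite)`/`Set.Finite` of `{y | a.eval y = 0}`): choose a natural number `k` with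
`a(-q(k+1)) ≠ 0` and `a(q(n+1+k)) ≠ 0` (all large `k` are fine).  `y₀ = -q (k+1)`, `K = n + 2k + 2`,
`y₀ + q K = q(n+1+k)`.  For all `ε` in a punctured neighbourhood of `0` on the right
(`𝓝[>] 0`, finitely many points are excluded) and `i < K`:
`g(y₀+ε+q(i+1)) - g(y₀+ε+qi) = ρ(y₀+ε+qi)`; sum over `i` (`Finset.sum_range_sub`):
`g(y₀+qK+ε) - g(y₀+ε) = ∑ i ∈ range K, ρ(y₀+qi+ε)`.  The left side tends to a real number (`a ≠ 0` at
the two ends, continuity).  On the right side the term `i = k` (`y = -q + ε`) is `1/(L+q-ε)^3 - 1/ε^3`,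
the term `i = n+1+k` (`y = L + ε`) is `-1/ε^3 - 1/(L+q+ε)^3`, both tend to `-∞`, and the other
terms are bounded (continuous at `ε = 0`).  Simplest form: multiply by `ε^3` and let `ε → 0+`: the left
side tends to `0`, the right side to `-2`.
(`q ≥ 1`, `n ≥ 1`; the indices `k` and `n+1+k` are different.)
-/

namespace HZ89

open Finset Polynomial Filter Topology

theorem z2_ne (d : ℝ) : ∀ᶠ e : ℝ in 𝓝[≠] 0, e ≠ d := by
  by_cases hd : d = 0
  · subst hd
    exact self_mem_nhdsWithin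
  · exact nhdsWithin_le_nhds (isOpen_ne.mem_nhds (Ne.symm hd))

theorem z2_poly {p : ℝ[X]} (hp : p ≠ 0) (c : ℝ) : ∀ᶠ e : ℝ in 𝓝[≠] 0, p.eval (c + e) ≠ 0 := by
  have h : ∀ᶠ e : ℝ in 𝓝[≠] 0, ∀ r ∈ p.roots.toFinset, e ≠ r - c :=
    (Filter.eventually_all_finset _).2 fun r _ => z2_ne (r - c)
  filter_upwards [h] with e he h0
  exact he (c + e) (by rw [Multiset.mem_toFinset, mem_roots hp]; exact h0) (by ring)

theorem z2_far {p : ℝ[X]} (hp : p ≠ 0) : ∃ R : ℝ, ∀ y, p.eval y = 0 → |y| < R := by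
  have hf : ({x | IsRoot p x} : Set ℝ).Finite := Polynomial.finite_setOfPred_isRoot hp
  obtain ⟨R, hR⟩ := (hf.image abs).bddAbove
  refine ⟨R + 1, fun y hy => ?_⟩
  have := hR ⟨y, hy, rfl⟩
  linarith

theorem z2_lim1 (d : ℝ) :
    Tendsto (fun e : ℝ => e ^ 3 * (1 / (d - e) ^ 3)) (𝓝[≠] 0) (𝓝 (if d = 0 then -1 else 0)) := by
  by_cases hd : d = 0
  · rw [if_pos hd]
    refine (tendsto_const_nhds).congr' ?_
    filter_upwards [self_mem_nhdsWithin] with e he
    have he' : e ≠ 0 := he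
    subst hd
    field_simp
    ring
  · rw [if_neg hd]
    have hc : ContinuousAt (fun e : ℝ => e ^ 3 * (1 / (d - e) ^ 3)) 0 := by
      apply ContinuousAt.mul (by fun_prop)
      exact ContinuousAt.div (by fun_prop) (by fun_prop) (by simpa using hd)
    have h := hc.tendsto.mono_left (nhdsWithin_le_nhds (s := {0}ᶜ))
    simpa using h

theorem z2_lim2 (d : ℝ) :
    Tendsto (fun e : ℝ => e ^ 3 * (1 / (d + e) ^ 3)) (𝓝[≠] 0) (𝓝 (if d = 0 then 1 else 0)) := by
  by_cases hd : d = 0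
  · rw [if_pos hd]
    refine (tendsto_const_nhds).congr' ?_
    filter_upwards [self_mem_nhdsWithin] with e he
    have he' : e ≠ 0 := he
    subst hd
    rw [zero_add, mul_one_div, div_self (pow_ne_zero 3 he')]
  · rw [if_neg hd]
    have hc : ContinuousAt (fun e : ℝ => e ^ 3 * (1 / (d + e) ^ 3)) 0 := by
      apply ContinuousAt.mul (by fun_prop)
      exact ContinuousAt.div (by fun_prop) (by fun_prop) (by simpa using hd)
    have h := hc.tendsto.mono_left (nhdsWithin_le_nhds (s := {0}ᶜ))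
    simpa using h

theorem no_rational {q n : ℕ} (hq : 1 ≤ q) (hn : 1 ≤ n) {a b : ℝ[X]} (ha : a ≠ 0)
    (h : dif q n a b = 0) : False := by
  have hq1 : (1:ℝ) ≤ q := by exact_mod_cast hq
  have hq0 : (0:ℝ) < q := by linarith
  obtain ⟨L, hL⟩ : ∃ L : ℝ, L = (q:ℝ) * n := ⟨_, rfl⟩
  obtain ⟨R, hR⟩ := z2_far ha
  obtain ⟨k, hk⟩ := exists_nat_ge R
  have hk0 : (0:ℝ) ≤ k := Nat.cast_nonneg k
  have hn0 : (0:ℝ) ≤ n := Nat.cast_nonneg n
  obtain ⟨y0, hy0⟩ : ∃ y0 : ℝ, y0 = -((q:ℝ) * (k + 1)) := ⟨_, rfl⟩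
  obtain ⟨K, hK⟩ : ∃ K : ℕ, K = n + 2 * k + 2 := ⟨_, rfl⟩
  have hend : y0 + q * (K:ℝ) = q * (n + 1 + k) := by
    rw [hy0, hK]
    push_cast
    ring
  have hkq : R ≤ q * ((k:ℝ) + 1) := by nlinarith
  have ha0 : a.eval y0 ≠ 0 := by
    intro h0
    have h1 := hR y0 h0
    rw [hy0, abs_neg, abs_of_nonneg (by positivity)] at h1
    linarith
  have ha1 : a.eval (y0 + q * (K:ℝ)) ≠ 0 := by
    intro h0
    have h1 := hR _ h0
    rw [hend, abs_of_nonneg (by positivity)] at h1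
    nlinarith
  obtain ⟨F, hF⟩ : ∃ F : ℝ → ℝ, ∀ y, F y = b.eval y / a.eval y := ⟨fun y => b.eval y / a.eval y, fun y => rfl⟩
  have hstep : ∀ y : ℝ, y ≠ L → y ≠ -q → a.eval y ≠ 0 → a.eval (y + q) ≠ 0 →
      F (y + q) - F y = 1 / (L - y) ^ 3 - 1 / (y + q) ^ 3 := by
    intro y h1 h2 h3 h4
    have he := congrArg (Polynomial.eval y) h
    simp only [dif, eval_sub, eval_mul, eval_pow, eval_add, eval_X, eval_C, eval_comp, eval_zero] at he
    rw [← hL] at he
    have h5 : L - y ≠ 0 := sub_ne_zero.mpr (Ne.symm h1)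
    have h6 : y + q ≠ 0 := fun h => h2 (by linarith)
    rw [hF, hF, div_sub_div _ _ h4 h3, div_sub_div _ _ (pow_ne_zero 3 h5) (pow_ne_zero 3 h6),
      div_eq_div_iff (mul_ne_zero h4 h3) (mul_ne_zero (pow_ne_zero 3 h5) (pow_ne_zero 3 h6))]
    linear_combination he
  -- the telescoping sum
  have htel : ∀ᶠ e : ℝ in 𝓝[≠] 0, e ^ 3 * (F (y0 + q * (K:ℝ) + e) - F (y0 + e)) =
      ∑ i ∈ range K, e ^ 3 * (1 / (L - (y0 + q * (i:ℝ)) - e) ^ 3 - 1 / (y0 + q * (i:ℝ) + q + e) ^ 3) := by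
    have h1 : ∀ᶠ e : ℝ in 𝓝[≠] 0, ∀ i ∈ range (K + 1), a.eval (y0 + q * (i:ℝ) + e) ≠ 0 :=
      (Filter.eventually_all_finset _).2 fun i _ => z2_poly ha _
    have h2 : ∀ᶠ e : ℝ in 𝓝[≠] 0, ∀ i ∈ range (K + 1), e ≠ L - (y0 + q * (i:ℝ)) :=
      (Filter.eventually_all_finset _).2 fun i _ => z2_ne _
    have h3 : ∀ᶠ e : ℝ in 𝓝[≠] 0, ∀ i ∈ range (K + 1), e ≠ -q - (y0 + q * (i:ℝ)) :=
      (Filter.eventually_all_finset _).2 fun i _ => z2_ne _
    filter_upwards [h1, h2, h3] with e h1 h2 h3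
    rw [← mul_sum]
    congr 1
    have hs := Finset.sum_range_sub (fun i : ℕ => F (y0 + q * (i:ℝ) + e)) K
    simp only [Nat.cast_zero, mul_zero, add_zero] at hs
    rw [← hs]
    refine sum_congr rfl fun i hi => ?_
    have hiK : i < K := mem_range.mp hi
    have hm : i ∈ range (K + 1) := mem_range.mpr (by omega)
    have hm' : i + 1 ∈ range (K + 1) := mem_range.mpr (by omega)
    have e1 : y0 + q * ((i + 1 : ℕ):ℝ) + e = (y0 + q * (i:ℝ) + e) + q := by
      push_cast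
      ring
    have h4 := h1 (i + 1) hm'
    rw [e1] at h4
    have h5 := hstep (y0 + q * (i:ℝ) + e) (fun h => h2 i hm (by linarith)) (fun h => h3 i hm (by linarith))
      (h1 i hm) h4
    rw [e1, h5]
    congr 3 <;> ring
  -- the limits
  have hlim1 : Tendsto (fun e : ℝ => e ^ 3 * (F (y0 + q * (K:ℝ) + e) - F (y0 + e))) (𝓝[≠] 0) (𝓝 0) := by
    have hc : ContinuousAt (fun e : ℝ => e ^ 3 * (F (y0 + q * (K:ℝ) + e) - F (y0 + e))) 0 := by
      simp only [hF]
      apply ContinuousAt.mul (by fun_prop)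
      apply ContinuousAt.sub
      · refine ContinuousAt.div ?_ ?_ (by simpa using ha1)
        · exact (b.continuous.comp (continuous_const.add continuous_id)).continuousAt
        · exact (a.continuous.comp (continuous_const.add continuous_id)).continuousAt
      · refine ContinuousAt.div ?_ ?_ (by simpa using ha0)
        · exact (b.continuous.comp (continuous_const.add continuous_id)).continuousAt
        · exact (a.continuous.comp (continuous_const.add continuous_id)).continuousAt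
    have h := hc.tendsto.mono_left (nhdsWithin_le_nhds (s := {0}ᶜ))
    simpa using h
  have hlim2 : Tendsto (fun e : ℝ => ∑ i ∈ range K,
      e ^ 3 * (1 / (L - (y0 + q * (i:ℝ)) - e) ^ 3 - 1 / (y0 + q * (i:ℝ) + q + e) ^ 3)) (𝓝[≠] 0)
      (𝓝 (∑ i ∈ range K, ((if i = n + 1 + k then (-1:ℝ) else 0) - (if i = k then (1:ℝ) else 0)))) := by
    apply tendsto_finsetSum
    intro i _
    have t1 := z2_lim1 (L - (y0 + q * (i:ℝ)))
    have t2 := z2_lim2 (y0 + q * (i:ℝ) + q)
    have c1 : (L - (y0 + q * (i:ℝ)) = 0) ↔ i = n + 1 + k := by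
      rw [hL, hy0]
      constructor
      · intro h0
        have : (q:ℝ) * (i:ℝ) = q * ((n + 1 + k : ℕ) : ℝ) := by
          push_cast
          linarith
        exact_mod_cast mul_left_cancel₀ hq0.ne' this
      · intro h0
        rw [h0]
        push_cast
        ring
    have c2 : (y0 + q * (i:ℝ) + q = 0) ↔ i = k := by
      rw [hy0]
      constructor
      · intro h0
        have : (q:ℝ) * (i:ℝ) = q * (k : ℝ) := by
          linarith
        exact_mod_cast mul_left_cancel₀ hq0.ne' this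
      · intro h0
        rw [h0]
        ring
    simp only [c1] at t1
    simp only [c2] at t2
    refine (t1.sub t2).congr fun e => ?_
    rw [mul_sub]
  have huniq := tendsto_nhds_unique (hlim1.congr' htel) hlim2
  rw [sum_sub_distrib, sum_ite_eq', sum_ite_eq', if_pos (mem_range.mpr (by omega)),
    if_pos (mem_range.mpr (by omega))] at huniq
  norm_num at huniq

end HZ89
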