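import Pool.Agent.LibHZ89.N1
import Pool.Agent.LibHZ89.Z1b
import Pool.Agent.LibHZ89.Z2
import Pool.Agent.LibHZ89.B1

/-!
# The zero estimate (assembly)
-/

namespace HZ89

open Finset Polynomial

theorem zero_est {q n u : ℕ} {I : Finset ℕ} (hq : 1 ≤ q) (hu : 1 ≤ u) (hn : 9 ≤ n)
    (hI : ∀ x ∈ I, 1 ≤ x ∧ 2 * x < q) (hcard : I.card = 400 * u) {c : ℕ → ℝ}
    (hc : ∃ j ∈ P q n I, c j ≠ 0) (hM : Mom (P q n I) (om q n) (398 * u * n) c) (β : ℕ → ℝ)
    (hF : ∀ k ≤ 48 * u * n,
      ∑ j ∈ P q n I, c j * (BB (q * n) k j : ℝ) * (β (j % q) - ps q n j) = 0) : False := by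
  have hn1 : 1 ≤ n := by omega
  have hP : (P q n I).card = 400 * u * n := by rw [card_P hq hI, hcard]
  have hinj := om_inj (q := q) (n := n) (I := I) hI
  -- the moments of `c G`
  have hG : Mom (P q n I) (om q n) (48 * u * n + 1)
      (fun j => c j * (β (j % q) - ps q n j)) := by
    intro p hp
    let f : ℝ[X] →ₗ[ℝ] ℝ :=
      { toFun := fun p => ∑ j ∈ P q n I, c j * (β (j % q) - ps q n j) * p.eval (om q n j)
        map_add' := by
          intro p₁ p₂
          simp only [eval_add, mul_add, sum_add_distrib]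
        map_smul' := by
          intro a p₁
          simp only [eval_smul, smul_eq_mul, RingHom.id_apply, mul_sum]
          refine sum_congr rfl fun j _ => ?_
          ring }
    have := bp_span (q := q) (n := n) (d := 48 * u * n + 1) hq f (fun k hk => ?_) p hp
    · exact this
    · show ∑ j ∈ P q n I, c j * (β (j % q) - ps q n j) * (bp q n k).eval (om q n j) = 0
      rw [← hF k (by omega)]
      refine sum_congr rfl fun j hj => ?_
      rw [bp_eval hq (mem_P hI hj).2.1.le]
      ring
  have hM1 := num_natDegree hM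
  have hG1 := num_natDegree hG
  rw [hP] at hM1 hG1
  have hrel : ∀ j ∈ P q n I, (num (P q n I) (om q n)
      (fun j => c j * (β (j % q) - ps q n j))).eval (om q n j) =
      (β (j % q) - ps q n j) * (num (P q n I) (om q n) c).eval (om q n j) := by
    intro j hj
    rw [num_eval hj, num_eval hj]
    ring
  obtain ⟨v, hv⟩ : ∃ v, u * n = v := ⟨_, rfl⟩
  have hv9 : 9 * u ≤ v := by rw [← hv, mul_comm]; exact Nat.mul_le_mul_left _ hn
  have e1 : 400 * u * n = 400 * v := by rw [← hv]; ring
  have e2 : 398 * u * n = 398 * v := by rw [← hv]; ring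
  have e3 : 48 * u * n = 48 * v := by rw [← hv]; ring
  have e4 : I.card * (n - 1) = 400 * v - 400 * u := by
    rw [hcard, Nat.mul_sub, e1, mul_one]
  rw [e1, e2] at hM1
  rw [e1, e3] at hG1
  have h0 := dif_eq_zero (q := q) (n := n) hq hn1 hI hrel hM1 hG1
    (by rw [e4]; omega) (by rw [e4]; omega)
  have ha : num (P q n I) (om q n) c ≠ 0 := num_ne_zero hinj hc
  have ha' : (num (P q n I) (om q n) c).comp (omP q n) ≠ 0 := by
    intro h
    rw [Polynomial.comp_eq_zero_iff] at h
    rcases h with h | ⟨_, h2⟩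
    · exact ha h
    · have h3 := congrArg (fun p => Polynomial.coeff p 2) h2
      have hq' : (q : ℝ) ≠ 0 := by positivity
      simp only [omP, mul_sub, coeff_sub, coeff_C_succ] at h3
      rw [mul_assoc, coeff_C_mul, coeff_X_mul, coeff_C_succ, mul_assoc, coeff_C_mul, coeff_X_mul,
        coeff_X_one] at h3
      simp [hq'] at h3
  exact no_rational hq hn1 ha' h0

end HZ89
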