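import Pool.Agent.LibHZ89.Defs

/-!
# Row B2: the moments and the terms which vanish
-/

namespace HZ89

open Finset Polynomial

variable {Q : Finset ℕ} {w c : ℕ → ℝ} {d : ℕ} {n t : ℝ}

/-- the moments after multiplication by a polynomial -/
theorem Mom.mul (h : Mom Q w d c) (p : ℝ[X]) {e : ℕ} (hd : p.natDegree + e ≤ d) :
    Mom Q w e (fun j => c j * p.eval (w j)) := by
  intro r hr
  have h1 := h (p * r) (lt_of_le_of_lt Polynomial.natDegree_mul_le (by omega))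
  rw [← h1]
  refine Finset.sum_congr rfl fun j _ => ?_
  rw [Polynomial.eval_mul, mul_assoc]

theorem b2_div (p : ℝ[X]) (z : ℝ) : ∃ p₁ : ℝ[X], p₁.natDegree ≤ p.natDegree - 1 ∧
    ∀ x : ℝ, p.eval x = (z + x) * p₁.eval x + p.eval (-z) := by
  refine ⟨p /ₘ (X - C (-z)), ?_, fun x => ?_⟩
  · rw [Polynomial.natDegree_divByMonic _ (monic_X_sub_C _), natDegree_X_sub_C]
  · have h1 := Polynomial.modByMonic_add_div p (X - C (-z))
    rw [Polynomial.modByMonic_X_sub_C_eq_C_eval] at h1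
    have h2 := congrArg (Polynomial.eval x) h1
    rw [eval_add, eval_mul, eval_sub, eval_X, eval_C, eval_C] at h2
    rw [← h2]
    ring

/-- `∑ c p(w)/(z + w) = p(-z) ∑ c/(z+w)` for `deg p ≤ d`.
Plan: `p = (X + C z) * p₁ + C (p.eval (-z))` with `natDegree p₁ < d`
(`Polynomial.mul_divByMonic_eq_iff_isRoot`, `Polynomial.modByMonic_X_sub_C_eq_C_eval`). -/
theorem sum_div (h : Mom Q w d c) {z : ℝ} (hz : ∀ j ∈ Q, z + w j ≠ 0) (p : ℝ[X])
    (hp : p.natDegree ≤ d) (hd : 1 ≤ d) :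
    ∑ j ∈ Q, c j * p.eval (w j) / (z + w j) = p.eval (-z) * ∑ j ∈ Q, c j / (z + w j) := by
  obtain ⟨p₁, hp₁, he⟩ := b2_div p z
  have h1 := h p₁ (by omega)
  rw [Finset.mul_sum, ← zero_add (∑ j ∈ Q, p.eval (-z) * (c j / (z + w j))), ← h1, ← Finset.sum_add_distrib]
  refine Finset.sum_congr rfl fun j hj => ?_
  have hzj := hz j hj
  rw [he (w j)]
  field_simp

theorem b2_all (h : Mom Q w d c) (hd : 1 ≤ d) {v : ℝ} (hz : ∀ j ∈ Q, v + w j ≠ 0)
    (h1 : ∀ i : ℕ, 1 ≤ i → i ≤ 3 → ∑ j ∈ Q, c j / (v + w j) ^ i = 0) :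
    ∀ i : ℕ, i + 1 ≤ 3 → ∀ p : ℝ[X], p.natDegree ≤ d → ∑ j ∈ Q, c j * p.eval (w j) / (v + w j) ^ (i + 1) = 0 := by
  intro i
  induction i with
  | zero =>
    intro _ p hp
    have h2 := h1 1 le_rfl (by norm_num)
    simp only [pow_one] at h2
    simp only [zero_add, pow_one]
    rw [sum_div h hz p hp hd, h2, mul_zero]
  | succ i ih =>
    intro hi p hp
    obtain ⟨p₁, hp₁, he⟩ := b2_div p v
    have h3 := ih (by omega) p₁ (by omega)
    have h4 := h1 (i + 1 + 1) (by omega) hi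
    have h5 : ∑ j ∈ Q, c j * p.eval (w j) / (v + w j) ^ (i + 1 + 1) =
        ∑ j ∈ Q, c j * p₁.eval (w j) / (v + w j) ^ (i + 1) + p.eval (-v) * ∑ j ∈ Q, c j / (v + w j) ^ (i + 1 + 1) := by
      rw [Finset.mul_sum, ← Finset.sum_add_distrib]
      refine Finset.sum_congr rfl fun j hj => ?_
      have hzj := hz j hj
      rw [he (w j), pow_succ (v + w j) (i + 1)]
      have hzj' : (v + w j) ^ (i + 1) ≠ 0 := pow_ne_zero _ hzj
      field_simp
    rw [h5, h3, h4, mul_zero, add_zero]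

/-- The terms `t ≤ r n`. Plan: divide `p` three times by `X + C (vv n t)`. -/
theorem vanish (h : Mom Q w d c) (hd : 1 ≤ d) (hz : ∀ j ∈ Q, vv n t + w j ≠ 0)
    (h1 : ∀ i : ℕ, 1 ≤ i → i ≤ 3 → ∑ j ∈ Q, c j / (vv n t + w j) ^ i = 0) (p : ℝ[X])
    (hp : p.natDegree ≤ d) : FF n Q w (fun j => c j * p.eval (w j)) t = 0 := by
  have h2 := b2_all h hd hz h1 1 (by norm_num) p hp
  have h3 := b2_all h hd hz h1 2 (by norm_num) p hp
  unfold FF kap
  have h4 : ∑ j ∈ Q, c j * p.eval (w j) * (ss n t ^ 3 / (vv n t + w j) ^ 3 - 3 * ss n t / (vv n t + w j) ^ 2) =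
      ss n t ^ 3 * ∑ j ∈ Q, c j * p.eval (w j) / (vv n t + w j) ^ (2 + 1) -
        3 * ss n t * ∑ j ∈ Q, c j * p.eval (w j) / (vv n t + w j) ^ (1 + 1) := by
    rw [Finset.mul_sum, Finset.mul_sum, ← Finset.sum_sub_distrib]
    refine Finset.sum_congr rfl fun j _ => ?_
    norm_num
    ring
  rw [h4, h2, h3, mul_zero, mul_zero, sub_zero]

end HZ89
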