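import Pool.Agent.LibHZ89.D1

/-!
# Row D2: the linear form is small

Plan: `term_le` for `t ≥ T`, `∑_{t ≥ 1} 1/t³ ≤ 2` (telescoping `1/t³ ≤ 1/(t (t-1))` for `t ≥ 2`, or
`1/t^3 ≤ 1/t^2`), `n/(2t) ≤ n/(2T)`, the terms `t ≤ T` are zero.
-/

namespace HZ89

open Finset Polynomial

theorem d2_hasSum : HasSum (fun t : ℕ => 1 / ((t : ℝ) + 1) ^ 2) (Real.pi ^ 2 / 6) := by
  have h := hasSum_zeta_two
  rw [← hasSum_nat_add_iff' 1] at h
  simp only [Finset.sum_range_one, Nat.cast_zero] at h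
  norm_num at h
  simpa using h

theorem d2_pi : Real.pi ^ 2 / 6 ≤ 2 := by
  have h1 := Real.pi_lt_d2
  have h2 := Real.pi_pos
  nlinarith

theorem d2_kap {n u w : ℝ} (hn : 0 ≤ n) (hu : 1 ≤ u) (hw : 0 < w) :
    |kap n u w| ≤ ((2 + n) ^ 3 + 3 * (2 + n)) * (1 / u ^ 2) := by
  have hu0 : 0 < u := by linarith
  have hs : ss n u ≤ (2 + n) * u := by unfold ss; nlinarith
  have hs0 : 0 ≤ ss n u := by unfold ss; linarith
  have hv : u ^ 2 ≤ vv n u + w := by unfold vv; nlinarith [mul_nonneg hu0.le hn]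
  have hu2 : 0 < u ^ 2 := by positivity
  have hvw : 0 < vv n u + w := lt_of_lt_of_le hu2 hv
  have h1 : ss n u ^ 3 / (vv n u + w) ^ 3 ≤ (2 + n) ^ 3 * (1 / u ^ 2) := by
    calc ss n u ^ 3 / (vv n u + w) ^ 3 ≤ ((2 + n) * u) ^ 3 / (u ^ 2) ^ 3 :=
          div_le_div₀ (by positivity) (pow_le_pow_left₀ hs0 hs 3) (by positivity)
            (pow_le_pow_left₀ hu2.le hv 3)
      _ = (2 + n) ^ 3 * (1 / u ^ 3) := by field_simp
      _ ≤ (2 + n) ^ 3 * (1 / u ^ 2) := by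
          apply mul_le_mul_of_nonneg_left _ (by positivity)
          exact one_div_le_one_div_of_le hu2 (pow_le_pow_right₀ hu (by norm_num))
  have h2 : 3 * ss n u / (vv n u + w) ^ 2 ≤ 3 * (2 + n) * (1 / u ^ 2) := by
    calc 3 * ss n u / (vv n u + w) ^ 2 ≤ 3 * ((2 + n) * u) / (u ^ 2) ^ 2 :=
          div_le_div₀ (by positivity) (by linarith) (by positivity)
            (pow_le_pow_left₀ hu2.le hv 2)
      _ = 3 * (2 + n) * (1 / u ^ 3) := by field_simp
      _ ≤ 3 * (2 + n) * (1 / u ^ 2) := by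
          apply mul_le_mul_of_nonneg_left _ (by positivity)
          exact one_div_le_one_div_of_le hu2 (pow_le_pow_right₀ hu (by norm_num))
  have h3 : 0 ≤ ss n u ^ 3 / (vv n u + w) ^ 3 := by positivity
  have h4 : 0 ≤ 3 * ss n u / (vv n u + w) ^ 2 := by positivity
  unfold kap
  rw [add_mul, abs_le]
  have h5 : 0 ≤ (2 + n) ^ 3 * (1 / u ^ 2) := by positivity
  have h6 : 0 ≤ 3 * (2 + n) * (1 / u ^ 2) := by positivity
  constructor <;> linarith

/-- summability -/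
theorem summable_FF {Q : Finset ℕ} {w c : ℕ → ℝ} {n : ℕ} (hn : 1 ≤ n)
    (hpos : ∀ j ∈ Q, 0 < w j) : Summable fun t : ℕ => FF n Q w c (t + 1) := by
  unfold FF
  refine summable_sum fun j hj => ?_
  refine Summable.mul_left _ ?_
  refine Summable.of_norm_bounded
    (d2_hasSum.summable.mul_left (((2 : ℝ) + n) ^ 3 + 3 * (2 + n))) fun t => ?_
  rw [Real.norm_eq_abs]
  have ht : (0 : ℝ) ≤ t := Nat.cast_nonneg t
  exact d2_kap (Nat.cast_nonneg n) (by linarith) (hpos j hj)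

theorem small {Q : Finset ℕ} {w c : ℕ → ℝ} {n T m : ℕ} (hn : 1 ≤ n) (hT : n ≤ T)
    (hpos : ∀ j ∈ Q, 0 < w j) (hle : ∀ j ∈ Q, w j ≤ (n : ℝ) ^ 2 / 4) (hM : Mom Q w (3 * m) c)
    (hz : ∀ t : ℕ, 1 ≤ t → t ≤ T → FF n Q w c t = 0) :
    |ell n Q w c| ≤ 200 * (∑ j ∈ Q, |c j|) * ((n : ℝ) / (2 * T)) ^ (2 * m) := by
  have hn1 : (1 : ℝ) ≤ n := by exact_mod_cast hn
  have hT1 : (n : ℝ) ≤ T := by exact_mod_cast hT
  obtain ⟨A, hA⟩ : ∃ A : ℝ, A = ∑ j ∈ Q, |c j| := ⟨_, rfl⟩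
  have hA0 : 0 ≤ A := by rw [hA]; exact Finset.sum_nonneg fun j _ => abs_nonneg _
  obtain ⟨B, hB⟩ : ∃ B : ℝ, B = ((n : ℝ) / (2 * T)) ^ (2 * m) := ⟨_, rfl⟩
  have hT0 : (0 : ℝ) < T := by linarith
  have hB0 : 0 ≤ B := by rw [hB]; positivity
  rw [← hA, ← hB]
  have hmain := tsum_of_norm_bounded (f := fun t : ℕ => FF n Q w c (t + 1))
    (d2_hasSum.mul_left (99 * A * B)) (fun t => by
      rw [Real.norm_eq_abs]
      have ht : (0 : ℝ) ≤ t := Nat.cast_nonneg t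
      by_cases h : t + 1 ≤ T
      · have h1 := hz (t + 1) (by omega) h
        push_cast at h1
        rw [h1, abs_zero]
        positivity
      · push Not at h
        have h2 : (T : ℝ) ≤ (t : ℝ) + 1 := by exact_mod_cast h.le
        have h3 := term_le (n := (n : ℝ)) (t := (t : ℝ) + 1) hn1 (by linarith) hpos hle hM
        rw [← hA] at h3
        refine h3.trans ?_
        have h4 : ((n : ℝ) / (2 * ((t : ℝ) + 1))) ^ (2 * m) ≤ B := by
          rw [hB]
          apply pow_le_pow_left₀ (by positivity)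
          exact div_le_div_of_nonneg_left (by linarith) (by positivity) (by linarith)
        have h5 : (1 : ℝ) ≤ (t : ℝ) + 1 := by linarith
        calc 99 * A * ((n : ℝ) / (2 * ((t : ℝ) + 1))) ^ (2 * m) / ((t : ℝ) + 1) ^ 3 ≤
            99 * A * B / ((t : ℝ) + 1) ^ 3 :=
              div_le_div_of_nonneg_right (mul_le_mul_of_nonneg_left h4 (by positivity))
                (by positivity)
          _ ≤ 99 * A * B / ((t : ℝ) + 1) ^ 2 :=
              div_le_div_of_nonneg_left (by positivity) (by positivity)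
                (pow_le_pow_right₀ h5 (by norm_num))
          _ = 99 * A * B * (1 / ((t : ℝ) + 1) ^ 2) := by ring)
  have h1 := d2_pi
  have h2 : 99 * A * B * (Real.pi ^ 2 / 6) ≤ 99 * A * B * 2 :=
    mul_le_mul_of_nonneg_left h1 (by positivity)
  have h3 : 0 ≤ A * B := mul_nonneg hA0 hB0
  unfold ell
  rw [← Real.norm_eq_abs]
  linarith

end HZ89
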