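import Mathlib

/-!
# Row G2: the choice of `u`

Plan: `u = ⌈20 q / log q⌉₊`, `u ≥ 20 q / log q ≥ √q` (`log q ≤ 20 √q`), so `u log u ≥ 10 q ≥ 14 q log 2`;
`u ≥ 9` since `q / log q ≥ e`; `400 u ≤ 8000 q / log q + 400 ≤ 8400 q / log q`.
-/

namespace HZ89

theorem choose_u {q : ℕ} (hq : 2 ≤ q) : ∃ u : ℕ, 9 ≤ u ∧ 2 ^ (14 * q) ≤ u ^ u ∧
    (400 * u : ℝ) ≤ 8400 * q / Real.log q := by
  have hq2 : (2 : ℝ) ≤ q := by exact_mod_cast hq
  have hq0 : (0 : ℝ) < q := by linarith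
  have hL : 0 < Real.log q := Real.log_pos (by linarith)
  -- `q / log q ≥ e`
  have h1 : Real.log q ≤ q / Real.exp 1 := by
    have h := Real.log_le_sub_one_of_pos (div_pos hq0 (Real.exp_pos 1))
    rw [Real.log_div hq0.ne' (Real.exp_pos 1).ne', Real.log_exp] at h
    linarith
  have he := Real.exp_one_gt_d9
  have h2 : 2 ≤ (q : ℝ) / Real.log q := by
    rw [le_div_iff₀ hL]
    rw [le_div_iff₀ (Real.exp_pos 1)] at h1
    nlinarith
  set x : ℝ := 20 * q / Real.log q with hx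
  have hx1 : x = 20 * (q / Real.log q) := by rw [hx]; ring
  have hx0 : 40 ≤ x := by rw [hx1]; linarith
  obtain ⟨u, hu⟩ : ∃ u : ℕ, u = ⌈x⌉₊ := ⟨_, rfl⟩
  have hu1 : x ≤ u := by rw [hu]; exact Nat.le_ceil x
  have hu2 : (u : ℝ) ≤ x + 1 := by rw [hu]; exact (Nat.ceil_lt_add_one (by linarith)).le
  refine ⟨u, ?_, ?_, ?_⟩
  · have : (9 : ℝ) ≤ u := by linarith
    exact_mod_cast this
  · have hu0 : (0 : ℝ) < u := by linarith
    -- `log u ≥ (log q) / 2`
    have h3 : Real.log q / 2 ≤ Real.log u := by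
      have h4 : Real.log q / 2 = Real.log (Real.sqrt q) := by rw [Real.log_sqrt hq0.le]
      rw [h4]
      have hs0 : 0 < Real.sqrt q := Real.sqrt_pos.2 hq0
      apply Real.log_le_log hs0
      refine le_trans ?_ hu1
      have h5 : Real.log (Real.sqrt q) ≤ Real.sqrt q - 1 := Real.log_le_sub_one_of_pos hs0
      have h6 : Real.log q ≤ 20 * Real.sqrt q := by
        rw [← h4] at h5
        linarith
      rw [hx, le_div_iff₀ hL]
      have h7 : Real.sqrt q * Real.sqrt q = q := Real.mul_self_sqrt hq0.le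
      nlinarith
    have h8 : 10 * (q : ℝ) ≤ u * Real.log u := by
      have h9 : x * (Real.log q / 2) = 10 * q := by
        rw [hx]
        field_simp
        norm_num
      rw [← h9]
      exact mul_le_mul hu1 h3 (by positivity) hu0.le
    have h10 := Real.log_two_lt_d9
    have h11 : (2 : ℝ) ^ (14 * q) ≤ (u : ℝ) ^ u := by
      rw [← Real.log_le_log_iff (by positivity) (by positivity), Real.log_pow, Real.log_pow]
      push_cast
      nlinarith
    exact_mod_cast h11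
  · have h3 : (8400 : ℝ) * q / Real.log q = 8400 * (q / Real.log q) := by ring
    rw [h3]
    rw [hx1] at hu2
    linarith

/-- the choice of `r` -/
theorem choose_r {u : ℕ} (hu : 9 ≤ u) : ∃ r : ℕ, 1 ≤ r ∧ 3 * r ≤ u ∧ r * (r + 1) ≤ 2 * u ∧
    u ≤ (2 * r) ^ 2 := by
  have h1 : Nat.sqrt u * Nat.sqrt u ≤ u := Nat.sqrt_le u
  have h2 : u < (Nat.sqrt u + 1) * (Nat.sqrt u + 1) := Nat.lt_succ_sqrt u
  have h3 : 3 ≤ Nat.sqrt u := by
    rw [Nat.le_sqrt]
    omega
  generalize Nat.sqrt u = s at h1 h2 h3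
  refine ⟨s, by omega, ?_, ?_, ?_⟩
  · nlinarith
  · nlinarith
  · nlinarith

end HZ89
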