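import Pool.Agent.LibHZ89.A3

/-!
# Row A3b: the nodes
-/

namespace HZ89

open Finset

variable {q n : ℕ} {I : Finset ℕ}

theorem om_pos (hI : ∀ x ∈ I, 1 ≤ x ∧ 2 * x < q) {j : ℕ} (hj : j ∈ P q n I) : 0 < om q n j := by
  obtain ⟨h1, h2, _, h4, h5⟩ := mem_P hI hj
  have hq : (0 : ℝ) < q := by exact_mod_cast (by omega : 0 < q)
  have hj0 : (0 : ℝ) < j := by exact_mod_cast (by omega : 0 < j)
  have h3 : (j : ℝ) < q * n := by exact_mod_cast h2
  unfold om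
  refine mul_pos (div_pos hj0 hq) ?_
  rw [sub_pos, div_lt_iff₀ hq, mul_comm]
  exact h3

/-- `x (n - x) ≤ n² / 4` -/
theorem om_le (j : ℕ) : om q n j ≤ (n : ℝ) ^ 2 / 4 := by
  unfold om
  nlinarith [sq_nonneg ((j : ℝ) / q - n / 2)]

/-- `om j = om j'` iff `j = j'` or `j + j' = q n`; the latter is impossible since the classes of `j`
and `j'` are in `(0, q / 2)`. -/
theorem om_inj (hI : ∀ x ∈ I, 1 ≤ x ∧ 2 * x < q) : Set.InjOn (om q n) (P q n I) := by
  intro j hj j' hj' h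
  rw [Finset.mem_coe] at hj hj'
  obtain ⟨h1, h2, _, h4, h5⟩ := mem_P hI hj
  obtain ⟨h1', h2', _, h4', h5'⟩ := mem_P hI hj'
  have hq : (q : ℝ) ≠ 0 := by exact_mod_cast (by omega : q ≠ 0)
  have h6 : ((j : ℝ) - j') * (q * n - j - j') = 0 := by
    have h7 : om q n j = om q n j' := h
    unfold om at h7
    field_simp at h7
    linear_combination h7
  rcases mul_eq_zero.1 h6 with h7 | h7
  · exact_mod_cast sub_eq_zero.1 h7
  · exfalso
    have h8 : j + j' = q * n := by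
      have h9 : ((j + j' : ℕ) : ℝ) = ((q * n : ℕ) : ℝ) := by
        push_cast
        linarith
      exact_mod_cast h9
    have h9 : (j % q + j' % q) % q = 0 := by
      rw [← Nat.add_mod, h8, Nat.mul_mod_right]
    rw [Nat.mod_eq_of_lt (by omega)] at h9
    omega

/-- `(q t + j) (q t + q n - j) = q² (v_t + om j)` -/
theorem om_mul (hq : 1 ≤ q) (t : ℝ) (j : ℕ) :
    (q * t + j) * (q * t + (q * n - j)) = (q : ℝ) ^ 2 * (vv n t + om q n j) := by
  have hq0 : (q : ℝ) ≠ 0 := by exact_mod_cast (by omega : q ≠ 0)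
  unfold om vv
  field_simp
  ring

/-- `(q t + j)⁻³ + (q t + q n - j)⁻³ = q⁻³ κ_t(om j)` -/
theorem kap_eq (hq : 1 ≤ q) (hI : ∀ x ∈ I, 1 ≤ x ∧ 2 * x < q) {j : ℕ} (hj : j ∈ P q n I) {t : ℝ}
    (ht : 0 < t) : 1 / ((q : ℝ) * t + j) ^ 3 + 1 / ((q : ℝ) * t + (q * n - j)) ^ 3 =
      1 / (q : ℝ) ^ 3 * kap n t (om q n j) := by
  obtain ⟨h1, h2, _, h4, h5⟩ := mem_P hI hj
  have hq0 : (0 : ℝ) < q := by exact_mod_cast (by omega : 0 < q)
  have hj0 : (0 : ℝ) < j := by exact_mod_cast (by omega : 0 < j)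
  have h3 : (j : ℝ) < q * n := by exact_mod_cast h2
  have h6 := om_mul (n := n) hq t j
  have hom := om_pos hI hj
  have hv : 0 < vv n t + om q n j := by
    unfold vv
    have hn : (0 : ℝ) ≤ n := Nat.cast_nonneg n
    have : 0 < t * (t + n) := mul_pos ht (by linarith)
    linarith
  obtain ⟨y, hy⟩ : ∃ y, y = vv n t + om q n j := ⟨_, rfl⟩
  obtain ⟨a, ha⟩ : ∃ a, a = (q : ℝ) * t + j := ⟨_, rfl⟩
  obtain ⟨b, hb⟩ : ∃ b, b = (q : ℝ) * t + (q * n - j) := ⟨_, rfl⟩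
  have hs : a + b = q * ss n t := by
    rw [ha, hb]
    unfold ss
    ring
  unfold kap
  rw [← hy] at h6 hv ⊢
  rw [← ha, ← hb] at h6 ⊢
  have ha0 : 0 < a := by
    rw [ha]
    have := mul_pos hq0 ht
    linarith
  have hb0 : 0 < b := by
    rw [hb]
    have := mul_pos hq0 ht
    linarith
  have hsum : 1 / a ^ 3 + 1 / b ^ 3 = ((a + b) ^ 3 - 3 * (a * b) * (a + b)) / (a * b) ^ 3 := by
    field_simp
    ring
  rw [hsum, h6, hs]
  field_simp

end HZ89
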