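import Pool.Agent.LibHZ89.Defs

/-!
# Row A1: Siegel's lemma with different bounds for the equations (pigeonhole)

Plan: `T = Fin (A + 1)`-valued vectors `ι → Fin (A+1)`, `(A+1)^card ι` many; map to
`∀ k, Fin (card ι * A * B k + 1)` by the values of the equations; `Fintype.exists_ne_map_eq_of_card_lt`,
take the difference.
-/

namespace HZ89

open Finset

theorem siegel {ι κ : Type} [Fintype ι] [DecidableEq ι] [Fintype κ] [DecidableEq κ]
    (M : κ → ι → ℕ) (B : κ → ℕ) (hB : ∀ k i, M k i ≤ B k) (A : ℕ)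
    (h : ∏ k, (Fintype.card ι * A * B k + 1) < (A + 1) ^ Fintype.card ι) :
    ∃ c : ι → ℤ, (∃ i, c i ≠ 0) ∧ (∀ i, |c i| ≤ A) ∧ ∀ k, ∑ i, c i * (M k i : ℤ) = 0 := by
  have hval : ∀ (x : ι → Fin (A + 1)) (k : κ), ∑ i, (x i : ℕ) * M k i < Fintype.card ι * A * B k + 1 := by
    intro x k
    have h1 : ∑ i, (x i : ℕ) * M k i ≤ ∑ _i : ι, A * B k := by
      refine Finset.sum_le_sum fun i _ => Nat.mul_le_mul ?_ (hB k i)
      exact Nat.lt_succ_iff.1 (x i).2
    rw [Finset.sum_const, Finset.card_univ, smul_eq_mul, ← mul_assoc] at h1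
    omega
  let f : (ι → Fin (A + 1)) → ((k : κ) → Fin (Fintype.card ι * A * B k + 1)) :=
    fun x k => ⟨∑ i, (x i : ℕ) * M k i, hval x k⟩
  have hcard : Fintype.card ((k : κ) → Fin (Fintype.card ι * A * B k + 1)) < Fintype.card (ι → Fin (A + 1)) := by
    simpa [Fintype.card_pi] using h
  obtain ⟨x, y, hxy, hf⟩ := Fintype.exists_ne_map_eq_of_card_lt f hcard
  refine ⟨fun i => (x i : ℤ) - (y i : ℤ), ?_, ?_, ?_⟩
  · by_contra hcon
    push Not at hcon
    apply hxy
    funext i
    apply Fin.ext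
    have := hcon i
    omega
  · intro i
    have h1 := (x i).2
    have h2 := (y i).2
    change |(x i : ℤ) - (y i : ℤ)| ≤ A
    rw [abs_le]
    constructor <;> omega
  · intro k
    have h1 := congrArg (fun z => ((z k : ℕ) : ℤ)) hf
    simp only [f] at h1
    push_cast at h1
    simp only [sub_mul, Finset.sum_sub_distrib]
    linarith

end HZ89
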