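import Pool.Agent.LibHZ89.Defs

/-!
# Row A3: the set of the poles and the nodes
-/

namespace HZ89

open Finset

variable {q n : ℕ} {I : Finset ℕ}

/-- Plan: each class `x < q` has exactly `n` elements below `q n`: bijection
`I ×ˢ range n → P q n I`, `(x, i) ↦ q * i + x`. -/
theorem card_P (hq : 1 ≤ q) (hI : ∀ x ∈ I, 1 ≤ x ∧ 2 * x < q) : (P q n I).card = I.card * n := by
  have h : (I ×ˢ range n).card = (P q n I).card := by
    refine Finset.card_bij (fun a _ => q * a.2 + a.1) ?_ ?_ ?_
    · intro a ha
      rw [Finset.mem_product, Finset.mem_range] at ha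
      have h1 := hI a.1 ha.1
      have h2 : a.1 < q := by omega
      unfold P
      rw [Finset.mem_filter, Finset.mem_range]
      refine ⟨?_, ?_⟩
      · calc q * a.2 + a.1 < q * a.2 + q := by omega
          _ = q * (a.2 + 1) := by ring
          _ ≤ q * n := Nat.mul_le_mul_left q ha.2
      · rw [Nat.mul_add_mod, Nat.mod_eq_of_lt h2]
        exact ha.1
    · intro a ha b hb hab
      rw [Finset.mem_product] at ha hb
      have h1 := hI a.1 ha.1
      have h2 := hI b.1 hb.1
      have h3 : a.1 < q := by omega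
      have h4 : b.1 < q := by omega
      have hab' : q * a.2 + a.1 = q * b.2 + b.1 := hab
      have e1 : a.1 = b.1 := by
        have := congrArg (· % q) hab'
        simp only [Nat.mul_add_mod, Nat.mod_eq_of_lt h3, Nat.mod_eq_of_lt h4] at this
        exact this
      have e2 : a.2 = b.2 := by
        rw [e1] at hab'
        exact Nat.eq_of_mul_eq_mul_left (by omega) (Nat.add_right_cancel hab')
      exact Prod.ext e1 e2
    · intro j hj
      unfold P at hj
      rw [Finset.mem_filter, Finset.mem_range] at hj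
      refine ⟨(j % q, j / q), ?_, Nat.div_add_mod j q⟩
      rw [Finset.mem_product, Finset.mem_range]
      exact ⟨hj.2, Nat.div_lt_of_lt_mul hj.1⟩
  rw [← h, Finset.card_product, Finset.card_range]

/-- the elements of `P` -/
theorem mem_P (hI : ∀ x ∈ I, 1 ≤ x ∧ 2 * x < q) {j : ℕ} (hj : j ∈ P q n I) :
    1 ≤ j ∧ j < q * n ∧ j % q ∈ I ∧ 2 * (j % q) < q ∧ 1 ≤ j % q := by
  unfold P at hj
  rw [Finset.mem_filter, Finset.mem_range] at hj
  have h1 := hI _ hj.2
  have h2 : j % q ≤ j := Nat.mod_le j q
  exact ⟨by omega, hj.1, hj.2, h1.2, h1.1⟩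

end HZ89
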