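import Pool.Agent.LibHZ89.A1
import Pool.Agent.LibHZ89.A2
import Pool.Agent.LibHZ89.A3b
import Pool.Agent.LibHZ89.B1

/-!
# Row A4: the coefficients (Siegel's lemma for the moment and zero conditions)

Plan: `N = 400 u n`, `d = 398 u n`, `L = q n`, `Λ = lcmUpto (q (r+1) n)`, unknowns indexed by the
subtype of `P q n I` (`card_P`), equations indexed by `Fin d ⊕ (Fin (r n) × Fin 3)`:
`B_k(j)` (bound `2^L`, `BB_le`) and `Λ^6 / ((q t + j)(q t + L - j))^i` (natural number since both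
factors are at most `q (r+1) n`, hence divide `Λ` (`dvd_lcm'`); bound `Λ^6`; real value
`Λ^6 / (q^(2i) (v_t + om j)^i)` by `om_mul`).  `siegel` with `A = (800 u n)^400 * 2^(686 q n)`:
`∏ ≤ (2 N A 2^L)^d (2 N A Λ^6)^(3 r n) = (2NA)^(d + 3rn) 2^(L d) Λ^(18 r n)`,
`Λ^(18rn) ≤ 2^(8 q (r+1) n 18 r n) ≤ 2^(288 q u n²)` (`r (r+1) ≤ 2u`),
`(2N)^(d+3rn) ≤ (2N)^(400 u n)`, `2^(L d) = 2^(398 q u n²)`,
so `∏ ≤ A^(d+3rn) A^(u n) ≤ A^N < (A+1)^N` (`d + 3rn + un ≤ N` since `3 r ≤ u`).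
-/

namespace HZ89

open Finset

/-- the final comparison of powers -/
private theorem a4_pow {N A L Λ d e w : ℕ} (hN : 1 ≤ N) (hA : 1 ≤ A) (hΛ : 1 ≤ Λ)
    (h2 : (2 * N) ^ (d + e) * (2 ^ L) ^ d * (Λ ^ 6) ^ e ≤ A ^ w) (h3 : d + e + w ≤ N) :
    (N * A * 2 ^ L + 1) ^ d * (N * A * Λ ^ 6 + 1) ^ e < (A + 1) ^ N := by
  have h4 : N * A * 2 ^ L + 1 ≤ 2 * N * A * 2 ^ L := by
    have : 1 ≤ N * A * 2 ^ L := Nat.one_le_iff_ne_zero.mpr (by positivity)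
    calc N * A * 2 ^ L + 1 ≤ N * A * 2 ^ L + N * A * 2 ^ L := by omega
      _ = 2 * N * A * 2 ^ L := by ring
  have h5 : N * A * Λ ^ 6 + 1 ≤ 2 * N * A * Λ ^ 6 := by
    have : 1 ≤ N * A * Λ ^ 6 := Nat.one_le_iff_ne_zero.mpr (by positivity)
    calc N * A * Λ ^ 6 + 1 ≤ N * A * Λ ^ 6 + N * A * Λ ^ 6 := by omega
      _ = 2 * N * A * Λ ^ 6 := by ring
  calc (N * A * 2 ^ L + 1) ^ d * (N * A * Λ ^ 6 + 1) ^ e
      ≤ (2 * N * A * 2 ^ L) ^ d * (2 * N * A * Λ ^ 6) ^ e :=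
        Nat.mul_le_mul (Nat.pow_le_pow_left h4 d) (Nat.pow_le_pow_left h5 e)
    _ = ((2 * N) ^ (d + e) * (2 ^ L) ^ d * (Λ ^ 6) ^ e) * A ^ (d + e) := by
        rw [mul_pow, mul_pow (2 * N * A), mul_pow (2 * N) A d, mul_pow (2 * N) A e, pow_add, pow_add]
        ring
    _ ≤ A ^ w * A ^ (d + e) := Nat.mul_le_mul_right _ h2
    _ = A ^ (d + e + w) := by rw [← pow_add]; congr 1; ring
    _ ≤ A ^ N := Nat.pow_le_pow_right hA h3
    _ < (A + 1) ^ N := Nat.pow_lt_pow_left (by omega) (by omega)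

private theorem a4_num {q u r n Λ : ℕ} (hq : 1 ≤ q) (hu : 1 ≤ u) (hr : 3 * r ≤ u)
    (hr2 : r * (r + 1) ≤ 2 * u) (hn : 1 ≤ n) (hΛ1 : 1 ≤ Λ) (hΛ : Λ ≤ 2 ^ (8 * (q * (r + 1) * n))) :
    (400 * u * n * ((800 * u * n) ^ 400 * 2 ^ (686 * q * n)) * 2 ^ (q * n) + 1) ^ (398 * u * n) *
      (400 * u * n * ((800 * u * n) ^ 400 * 2 ^ (686 * q * n)) * Λ ^ 6 + 1) ^ (r * n * 3) <
      ((800 * u * n) ^ 400 * 2 ^ (686 * q * n) + 1) ^ (400 * u * n) := by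
  have hrn : r * n * 3 ≤ u * n := by
    calc r * n * 3 = 3 * r * n := by ring
      _ ≤ u * n := Nat.mul_le_mul_right _ hr
  have hun : 1 ≤ u * n := Nat.one_le_iff_ne_zero.mpr (by positivity)
  have hN : 1 ≤ 400 * u * n := Nat.one_le_iff_ne_zero.mpr (by positivity)
  have hX : 1 ≤ 800 * u * n := Nat.one_le_iff_ne_zero.mpr (by positivity)
  have hA : 1 ≤ (800 * u * n) ^ 400 * 2 ^ (686 * q * n) := by
    have h1 : 1 ≤ (800 * u * n) ^ 400 := Nat.one_le_pow _ _ (by omega)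
    have h2 : 1 ≤ 2 ^ (686 * q * n) := Nat.one_le_two_pow
    exact Nat.mul_le_mul h1 h2
  refine a4_pow (w := u * n) hN hA hΛ1 ?_ ?_
  · have e1 : (2 * (400 * u * n)) ^ (398 * u * n + r * n * 3) ≤ (800 * u * n) ^ (400 * (u * n)) := by
      have : 2 * (400 * u * n) = 800 * u * n := by ring
      rw [this]
      refine Nat.pow_le_pow_right (by omega) ?_
      have : 398 * u * n = 398 * (u * n) := by ring
      omega
    have e2 : ((2:ℕ) ^ (q * n)) ^ (398 * u * n) = 2 ^ (398 * (q * u * n ^ 2)) := by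
      rw [← pow_mul]; congr 1; ring
    have e3 : (Λ ^ 6) ^ (r * n * 3) ≤ 2 ^ (288 * (q * u * n ^ 2)) := by
      calc (Λ ^ 6) ^ (r * n * 3) = Λ ^ (18 * (r * n)) := by rw [← pow_mul]; congr 1; ring
        _ ≤ (2 ^ (8 * (q * (r + 1) * n))) ^ (18 * (r * n)) := Nat.pow_le_pow_left hΛ _
        _ = 2 ^ (144 * (q * (r * (r + 1)) * n ^ 2)) := by rw [← pow_mul]; congr 1; ring
        _ ≤ 2 ^ (288 * (q * u * n ^ 2)) := by
            refine Nat.pow_le_pow_right (by norm_num) ?_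
            calc 144 * (q * (r * (r + 1)) * n ^ 2) ≤ 144 * (q * (2 * u) * n ^ 2) := by gcongr
              _ = 288 * (q * u * n ^ 2) := by ring
    calc (2 * (400 * u * n)) ^ (398 * u * n + r * n * 3) * (2 ^ (q * n)) ^ (398 * u * n) * (Λ ^ 6) ^ (r * n * 3)
        ≤ (800 * u * n) ^ (400 * (u * n)) * 2 ^ (398 * (q * u * n ^ 2)) * 2 ^ (288 * (q * u * n ^ 2)) := by
          rw [e2]
          exact Nat.mul_le_mul (Nat.mul_le_mul_right _ e1) e3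
      _ = ((800 * u * n) ^ 400 * 2 ^ (686 * q * n)) ^ (u * n) := by
          generalize 800 * u * n = X
          rw [mul_pow, ← pow_mul, ← pow_mul, mul_assoc, ← pow_add]
          congr 2
          ring
  · have : 398 * u * n = 398 * (u * n) := by ring
    have h400 : 400 * u * n = 400 * (u * n) := by ring
    omega

/-- the equations at the zeros -/
private theorem a4_dvd {q r n t j i : ℕ} (ht : t ≤ r * n) (ht1 : 1 ≤ t) (hq : 1 ≤ q)
    (hj : j < q * n) (hi : i ≤ 3) :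
    ((q * t + j) * (q * t + (q * n - j))) ^ i ∣ Nat.lcmUpto (q * (r + 1) * n) ^ 6 := by
  have hqt : q * t ≤ q * (r * n) := Nat.mul_le_mul_left _ ht
  have hqt1 : 1 ≤ q * t := Nat.mul_le_mul hq ht1
  have hb : q * (r + 1) * n = q * (r * n) + q * n := by ring
  have h1 : (q * t + j) ∣ Nat.lcmUpto (q * (r + 1) * n) := dvd_lcm' (by omega) (by omega)
  have h2 : (q * t + (q * n - j)) ∣ Nat.lcmUpto (q * (r + 1) * n) := dvd_lcm' (by omega) (by omega)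
  have h3 : (q * t + j) * (q * t + (q * n - j)) ∣ Nat.lcmUpto (q * (r + 1) * n) ^ 2 := by
    rw [pow_two]; exact mul_dvd_mul h1 h2
  calc ((q * t + j) * (q * t + (q * n - j))) ^ i ∣ (Nat.lcmUpto (q * (r + 1) * n) ^ 2) ^ i := pow_dvd_pow_of_dvd h3 i
    _ ∣ (Nat.lcmUpto (q * (r + 1) * n) ^ 2) ^ 3 := pow_dvd_pow _ hi
    _ = Nat.lcmUpto (q * (r + 1) * n) ^ 6 := by rw [← pow_mul]

theorem exists_c {q u r n : ℕ} {I : Finset ℕ} (hq : 1 ≤ q) (hu : 1 ≤ u) (hr : 3 * r ≤ u)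
    (hr2 : r * (r + 1) ≤ 2 * u) (hn : 1 ≤ n) (hI : ∀ x ∈ I, 1 ≤ x ∧ 2 * x < q)
    (hcard : I.card = 400 * u) :
    ∃ c : ℕ → ℤ, (∃ j ∈ P q n I, c j ≠ 0) ∧
      (∀ j, |c j| ≤ (800 * u * n) ^ 400 * 2 ^ (686 * q * n)) ∧
      (∀ k < 398 * u * n, ∑ j ∈ P q n I, c j * (BB (q * n) k j : ℤ) = 0) ∧
      ∀ t : ℕ, 1 ≤ t → t ≤ r * n → ∀ i : ℕ, 1 ≤ i → i ≤ 3 →
        ∑ j ∈ P q n I, (c j : ℝ) / (vv n t + om q n j) ^ i = 0 := by
  classical
  have hΛ1 : 1 ≤ Nat.lcmUpto (q * (r + 1) * n) := by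
    exact Nat.lcmUpto_pos _
  have hΛ := lcm_le (q * (r + 1) * n)
  have hnum := a4_num hq hu hr hr2 hn hΛ1 hΛ
  have hNcard : Fintype.card {j // j ∈ P q n I} = 400 * u * n := by
    rw [Fintype.card_coe, card_P hq hI, hcard]
  let M : (Fin (398 * u * n) ⊕ (Fin (r * n) × Fin 3)) → {j // j ∈ P q n I} → ℕ :=
    Sum.elim (fun k j => BB (q * n) k j)
      (fun p j => Nat.lcmUpto (q * (r + 1) * n) ^ 6 /
        ((q * ((p.1 : ℕ) + 1) + j) * (q * ((p.1 : ℕ) + 1) + (q * n - j))) ^ ((p.2 : ℕ) + 1))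
  let B : (Fin (398 * u * n) ⊕ (Fin (r * n) × Fin 3)) → ℕ :=
    Sum.elim (fun _ => 2 ^ (q * n)) (fun _ => Nat.lcmUpto (q * (r + 1) * n) ^ 6)
  have hB : ∀ k i, M k i ≤ B k := by
    rintro (k | p) ⟨j, hj⟩
    · exact BB_le (mem_P hI hj).2.1.le
    · exact Nat.div_le_self _ _
  obtain ⟨c, ⟨i0, hi0⟩, hcA, hcM⟩ := siegel M B hB ((800 * u * n) ^ 400 * 2 ^ (686 * q * n)) (by
    rw [hNcard, Fintype.prod_sum_type]
    simp only [B, Sum.elim_inl, Sum.elim_inr, Finset.prod_const, Finset.card_univ, Fintype.card_fin,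
      Fintype.card_prod]
    exact hnum)
  have hsum : ∀ X : ℕ → ℤ, ∑ j ∈ P q n I, (if h : j ∈ P q n I then c ⟨j, h⟩ else 0) * X j =
      ∑ i : {j // j ∈ P q n I}, c i * X i := by
    intro X
    rw [← Finset.sum_coe_sort]
    refine Finset.sum_congr rfl fun i _ => ?_
    rw [dif_pos i.2]
  have hsumR : ∀ X : ℕ → ℝ, ∑ j ∈ P q n I, ((if h : j ∈ P q n I then c ⟨j, h⟩ else 0 : ℤ) : ℝ) * X j =
      ∑ i : {j // j ∈ P q n I}, (c i : ℝ) * X i := by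
    intro X
    rw [← Finset.sum_coe_sort]
    refine Finset.sum_congr rfl fun i _ => ?_
    rw [dif_pos i.2]
  refine ⟨fun j => if h : j ∈ P q n I then c ⟨j, h⟩ else 0, ?_, ?_, ?_, ?_⟩
  · refine ⟨i0, i0.2, ?_⟩
    dsimp only
    rw [dif_pos i0.2]
    exact hi0
  · intro j
    dsimp only
    split_ifs with h
    · have := hcA ⟨j, h⟩
      push_cast at this ⊢
      exact this
    · rw [abs_zero]
      positivity
  · intro k hk
    have := hcM (Sum.inl ⟨k, hk⟩)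
    rw [hsum (fun j => (BB (q * n) k j : ℤ))]
    exact this
  · intro t ht1 ht i hi1 hi
    have h0 := hcM (Sum.inr (⟨t - 1, by omega⟩, ⟨i - 1, by omega⟩))
    have hqR : (q : ℝ) ≠ 0 := by exact_mod_cast (by omega : q ≠ 0)
    have hΛR : ((Nat.lcmUpto (q * (r + 1) * n) : ℕ) : ℝ) ≠ 0 := by exact_mod_cast (by omega)
    have h1 : ∑ j : {j // j ∈ P q n I}, (c j : ℝ) *
        (((Nat.lcmUpto (q * (r + 1) * n) ^ 6 / ((q * t + j) * (q * t + (q * n - j))) ^ i : ℕ) : ℝ)) = 0 := by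
      have h2 : ((∑ j : {j // j ∈ P q n I}, c j * ((M (Sum.inr (⟨t - 1, by omega⟩, ⟨i - 1, by omega⟩)) j : ℕ) : ℤ) : ℤ) : ℝ) = 0 := by
        rw [h0]; simp
      rw [← h2]
      push_cast
      refine Finset.sum_congr rfl fun j _ => ?_
      simp only [M, Sum.elim_inr]
      rw [show t - 1 + 1 = t by omega, show i - 1 + 1 = i by omega]
    have h3 : ∀ j : {j // j ∈ P q n I},
        (((Nat.lcmUpto (q * (r + 1) * n) ^ 6 / ((q * t + j) * (q * t + (q * n - j))) ^ i : ℕ) : ℝ)) =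
        (((Nat.lcmUpto (q * (r + 1) * n) : ℕ) : ℝ) ^ 6 / ((q : ℝ) ^ 2) ^ i) * (1 / (vv n t + om q n j) ^ i) := by
      intro j
      have hj := mem_P hI j.2
      have hjle : (j : ℕ) ≤ q * n := hj.2.1.le
      rw [Nat.cast_div (a4_dvd ht ht1 hq hj.2.1 hi)]
      · push_cast [Nat.cast_sub hjle]
        rw [om_mul hq (t : ℝ) j, mul_pow]
        rw [div_mul_div_comm, mul_one]
      · have : 1 ≤ q * t := Nat.mul_le_mul hq ht1
        have h5 : (q * t + (j:ℕ)) * (q * t + (q * n - j)) ≠ 0 := by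
          refine Nat.mul_ne_zero (by omega) (by omega)
        exact_mod_cast pow_ne_zero i h5
    have h6 : ∑ j ∈ P q n I, ((if h : j ∈ P q n I then c ⟨j, h⟩ else 0 : ℤ) : ℝ) / (vv n t + om q n j) ^ i =
        ∑ j : {j // j ∈ P q n I}, (c j : ℝ) * (1 / (vv n t + om q n j) ^ i) := by
      rw [← hsumR (fun j => 1 / (vv n t + om q n j) ^ i)]
      refine Finset.sum_congr rfl fun j _ => ?_
      rw [mul_one_div]
    rw [h6]
    have h7 : (((Nat.lcmUpto (q * (r + 1) * n) : ℕ) : ℝ) ^ 6 / ((q : ℝ) ^ 2) ^ i) *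
        ∑ j : {j // j ∈ P q n I}, (c j : ℝ) * (1 / (vv n t + om q n j) ^ i) = 0 := by
      rw [Finset.mul_sum, ← h1]
      refine Finset.sum_congr rfl fun j _ => ?_
      rw [h3 j]
      ring
    rcases mul_eq_zero.mp h7 with h8 | h8
    · exfalso
      have : ((Nat.lcmUpto (q * (r + 1) * n) : ℕ) : ℝ) ^ 6 / ((q : ℝ) ^ 2) ^ i ≠ 0 :=
        div_ne_zero (pow_ne_zero _ hΛR) (pow_ne_zero _ (pow_ne_zero _ hqR))
      exact this h8
    · exact h8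

end HZ89
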