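import Pool.Agent.LibHZ89.Defs

/-!
# Row D1: one term of the linear form

Plan: `θ = w / v`, `1/(1+θ) - Q = (-θ)^m/(1+θ)`, `Q = ∑_{k<m} (-θ)^k`, `0 ≤ Q ≤ 1` for `0 ≤ θ ≤ 1`
(geometric sum), `|(1+θ)^{-3} - Q³| ≤ 3 θ^m`, `|(1+θ)^{-2} - Q²| ≤ 2 θ^m`; `Q³`, `Q²` are polynomials
in `w` of degree `< 3 m`: their sums vanish by `Mom`.  `s ≤ 3t`, `v ≥ t²`.
-/

namespace HZ89

open Finset Polynomial

/-- the geometric sum -/
private theorem d1_geom {θ : ℝ} (h0 : 0 ≤ θ) (h1 : θ ≤ 1) (m : ℕ) :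
    0 ≤ ∑ k ∈ range m, (-θ) ^ k ∧ ∑ k ∈ range m, (-θ) ^ k ≤ 1 ∧
      |1 / (1 + θ) - ∑ k ∈ range m, (-θ) ^ k| ≤ θ ^ m := by
  have hpos : 0 < 1 + θ := by linarith
  have hg : ∑ k ∈ range m, (-θ) ^ k = (1 - (-θ) ^ m) / (1 + θ) := by
    rw [geom_sum_eq (by linarith : (-θ) ≠ 1)]
    rw [div_eq_div_iff (by linarith) hpos.ne']
    ring
  have hab : |(-θ) ^ m| = θ ^ m := by
    rw [abs_pow, abs_neg, abs_of_nonneg h0]
  have hle1 : θ ^ m ≤ 1 := pow_le_one₀ h0 h1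
  have hb := abs_le.mp hab.le
  refine ⟨?_, ?_, ?_⟩
  · rw [hg]
    apply div_nonneg _ hpos.le
    linarith [hb.2]
  · rcases Nat.eq_zero_or_pos m with rfl | hm
    · simp
    · rw [hg, div_le_one hpos]
      have : θ ^ m ≤ θ := by
        calc θ ^ m ≤ θ ^ 1 := pow_le_pow_of_le_one h0 h1 hm
          _ = θ := pow_one _
      linarith [hb.1]
  · have : 1 / (1 + θ) - ∑ k ∈ range m, (-θ) ^ k = (-θ) ^ m / (1 + θ) := by
      rw [hg]; ring
    rw [this, abs_div, hab, abs_of_pos hpos, div_le_iff₀ hpos]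
    have : 0 ≤ θ ^ m := pow_nonneg h0 m
    nlinarith

theorem approx3 {θ : ℝ} (h0 : 0 ≤ θ) (h1 : θ ≤ 1) (m : ℕ) :
    |1 / (1 + θ) ^ 3 - (∑ k ∈ range m, (-θ) ^ k) ^ 3| ≤ 3 * θ ^ m := by
  obtain ⟨hQ0, hQ1, hd⟩ := d1_geom h0 h1 m
  set Q := ∑ k ∈ range m, (-θ) ^ k
  have ha0 : 0 ≤ 1 / (1 + θ) := by positivity
  have ha1 : 1 / (1 + θ) ≤ 1 := by
    rw [div_le_one (by linarith)]; linarith
  have e : 1 / (1 + θ) ^ 3 - Q ^ 3 = (1 / (1 + θ) - Q) * ((1 / (1 + θ)) ^ 2 + (1 / (1 + θ)) * Q + Q ^ 2) := by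
    rw [show 1 / (1 + θ) ^ 3 = (1 / (1 + θ)) ^ 3 by rw [div_pow, one_pow]]
    ring
  generalize 1 / (1 + θ) = a at *
  rw [e, abs_mul, abs_of_nonneg (a := a ^ 2 + a * Q + Q ^ 2) (by positivity)]
  have h3 : a ^ 2 + a * Q + Q ^ 2 ≤ 3 := by nlinarith
  calc |a - Q| * (a ^ 2 + a * Q + Q ^ 2) ≤ θ ^ m * 3 :=
        mul_le_mul hd h3 (by positivity) (pow_nonneg h0 m)
    _ = 3 * θ ^ m := by ring

theorem approx2 {θ : ℝ} (h0 : 0 ≤ θ) (h1 : θ ≤ 1) (m : ℕ) :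
    |1 / (1 + θ) ^ 2 - (∑ k ∈ range m, (-θ) ^ k) ^ 2| ≤ 2 * θ ^ m := by
  obtain ⟨hQ0, hQ1, hd⟩ := d1_geom h0 h1 m
  set Q := ∑ k ∈ range m, (-θ) ^ k
  have ha0 : 0 ≤ 1 / (1 + θ) := by positivity
  have ha1 : 1 / (1 + θ) ≤ 1 := by
    rw [div_le_one (by linarith)]; linarith
  have e : 1 / (1 + θ) ^ 2 - Q ^ 2 = (1 / (1 + θ) - Q) * (1 / (1 + θ) + Q) := by
    rw [show 1 / (1 + θ) ^ 2 = (1 / (1 + θ)) ^ 2 by rw [div_pow, one_pow]]
    ring
  generalize 1 / (1 + θ) = a at *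
  rw [e, abs_mul, abs_of_nonneg (a := a + Q) (by positivity)]
  have h3 : a + Q ≤ 2 := by linarith
  calc |a - Q| * (a + Q) ≤ θ ^ m * 2 :=
        mul_le_mul hd h3 (by positivity) (pow_nonneg h0 m)
    _ = 2 * θ ^ m := by ring

/-- the sums of the powers of the truncated geometric sum vanish -/
private theorem d1_mom {Q : Finset ℕ} {w c : ℕ → ℝ} {m : ℕ} (hM : Mom Q w (3 * m) c) (v : ℝ) {i : ℕ}
    (hi1 : 1 ≤ i) (hi : i ≤ 3) :
    ∑ j ∈ Q, c j * (∑ k ∈ range m, (-(w j / v)) ^ k) ^ i = 0 := by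
  rcases Nat.eq_zero_or_pos m with rfl | hm
  · simp [zero_pow (by omega : i ≠ 0)]
  · set p : ℝ[X] := (∑ k ∈ range m, (C (-(1 / v)) * X) ^ k) ^ i with hp
    have hdeg : p.natDegree < 3 * m := by
      have h1 : (∑ k ∈ range m, (C (-(1 / v)) * X : ℝ[X]) ^ k).natDegree ≤ m - 1 := by
        refine Polynomial.natDegree_sum_le_of_forall_le _ _ fun k hk => ?_
        have hk' := mem_range.mp hk
        calc ((C (-(1 / v)) * X : ℝ[X]) ^ k).natDegree ≤ k * (C (-(1 / v)) * X : ℝ[X]).natDegree :=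
              Polynomial.natDegree_pow_le
          _ ≤ k * 1 := Nat.mul_le_mul_left _ (by
              calc (C (-(1 / v)) * X : ℝ[X]).natDegree ≤ (X : ℝ[X]).natDegree := Polynomial.natDegree_C_mul_le _ _
                _ = 1 := Polynomial.natDegree_X)
          _ ≤ m - 1 := by omega
      have h2 : p.natDegree ≤ i * (m - 1) := by
        rw [hp]
        exact Polynomial.natDegree_pow_le.trans (Nat.mul_le_mul_left _ h1)
      have h3 : i * (m - 1) ≤ 3 * (m - 1) := Nat.mul_le_mul_right _ hi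
      omega
    have h4 := hM p hdeg
    rw [← h4]
    refine Finset.sum_congr rfl fun j _ => ?_
    congr 1
    rw [hp]
    simp only [Polynomial.eval_pow, Polynomial.eval_finsetSum, Polynomial.eval_mul, Polynomial.eval_C, Polynomial.eval_X]
    congr 1
    refine Finset.sum_congr rfl fun k _ => ?_
    congr 1
    ring

/-- one term -/
theorem term_le {Q : Finset ℕ} {w c : ℕ → ℝ} {n t : ℝ} {m : ℕ} (hn : 1 ≤ n) (ht : n ≤ t)
    (hpos : ∀ j ∈ Q, 0 < w j) (hle : ∀ j ∈ Q, w j ≤ n ^ 2 / 4) (hM : Mom Q w (3 * m) c) :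
    |FF n Q w c t| ≤ 99 * (∑ j ∈ Q, |c j|) * (n / (2 * t)) ^ (2 * m) / t ^ 3 := by
  have ht1 : 1 ≤ t := hn.trans ht
  have ht0 : 0 < t := by linarith
  have hv : t ^ 2 ≤ vv n t := by unfold vv; nlinarith
  have hv0 : 0 < vv n t := lt_of_lt_of_le (by positivity) hv
  have hs : ss n t ≤ 3 * t := by unfold ss; linarith
  have hs0 : 0 < ss n t := by unfold ss; linarith
  have hθ : ∀ j ∈ Q, 0 ≤ w j / vv n t ∧ w j / vv n t ≤ (n / (2 * t)) ^ 2 := by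
    intro j hj
    refine ⟨(div_pos (hpos j hj) hv0).le, ?_⟩
    calc w j / vv n t ≤ (n ^ 2 / 4) / t ^ 2 :=
          div_le_div₀ (by positivity) (hle j hj) (by positivity) hv
      _ = (n / (2 * t)) ^ 2 := by field_simp; norm_num
  have hx1 : (n / (2 * t)) ^ 2 ≤ 1 := by
    have : n / (2 * t) ≤ 1 := by
      rw [div_le_one (by positivity)]; linarith
    exact pow_le_one₀ (by positivity) this
  have h3 := d1_mom hM (vv n t) (i := 3) (by norm_num) (by norm_num)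
  have h2 := d1_mom hM (vv n t) (i := 2) (by norm_num) (by norm_num)
  have hFF : FF n Q w c t = ∑ j ∈ Q, c j *
      (ss n t ^ 3 / vv n t ^ 3 * (1 / (1 + w j / vv n t) ^ 3 - (∑ k ∈ range m, (-(w j / vv n t)) ^ k) ^ 3) -
       3 * ss n t / vv n t ^ 2 * (1 / (1 + w j / vv n t) ^ 2 - (∑ k ∈ range m, (-(w j / vv n t)) ^ k) ^ 2)) := by
    have e1 : ∀ j ∈ Q, c j *
      (ss n t ^ 3 / vv n t ^ 3 * (1 / (1 + w j / vv n t) ^ 3 - (∑ k ∈ range m, (-(w j / vv n t)) ^ k) ^ 3) -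
       3 * ss n t / vv n t ^ 2 * (1 / (1 + w j / vv n t) ^ 2 - (∑ k ∈ range m, (-(w j / vv n t)) ^ k) ^ 2)) =
       c j * kap n t (w j) - ss n t ^ 3 / vv n t ^ 3 * (c j * (∑ k ∈ range m, (-(w j / vv n t)) ^ k) ^ 3) +
        3 * ss n t / vv n t ^ 2 * (c j * (∑ k ∈ range m, (-(w j / vv n t)) ^ k) ^ 2) := by
      intro j hj
      have hvw : vv n t + w j ≠ 0 := by have := hpos j hj; linarith
      have e2 : ss n t ^ 3 / vv n t ^ 3 * (1 / (1 + w j / vv n t) ^ 3) = ss n t ^ 3 / (vv n t + w j) ^ 3 := by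
        rw [show 1 + w j / vv n t = (vv n t + w j) / vv n t by field_simp]
        field_simp
      have e3 : 3 * ss n t / vv n t ^ 2 * (1 / (1 + w j / vv n t) ^ 2) = 3 * ss n t / (vv n t + w j) ^ 2 := by
        rw [show 1 + w j / vv n t = (vv n t + w j) / vv n t by field_simp]
        field_simp
      unfold kap
      rw [← e2, ← e3]
      ring
    rw [Finset.sum_congr rfl e1, Finset.sum_add_distrib, Finset.sum_sub_distrib, ← Finset.mul_sum, ← Finset.mul_sum,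
      h3, h2, mul_zero, mul_zero, sub_zero, add_zero]
    rfl
  rw [hFF]
  have hA : ss n t ^ 3 / vv n t ^ 3 ≤ 27 / t ^ 3 := by
    calc ss n t ^ 3 / vv n t ^ 3 ≤ (3 * t) ^ 3 / (t ^ 2) ^ 3 :=
          div_le_div₀ (by positivity) (pow_le_pow_left₀ hs0.le hs 3) (by positivity) (pow_le_pow_left₀ (by positivity) hv 3)
      _ = 27 / t ^ 3 := by field_simp; norm_num
  have hB : 3 * ss n t / vv n t ^ 2 ≤ 9 / t ^ 3 := by
    calc 3 * ss n t / vv n t ^ 2 ≤ (3 * (3 * t)) / (t ^ 2) ^ 2 :=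
          div_le_div₀ (by positivity) (by linarith) (by positivity) (pow_le_pow_left₀ (by positivity) hv 2)
      _ = 9 / t ^ 3 := by field_simp; norm_num
  have hterm : ∀ j ∈ Q, |c j *
      (ss n t ^ 3 / vv n t ^ 3 * (1 / (1 + w j / vv n t) ^ 3 - (∑ k ∈ range m, (-(w j / vv n t)) ^ k) ^ 3) -
       3 * ss n t / vv n t ^ 2 * (1 / (1 + w j / vv n t) ^ 2 - (∑ k ∈ range m, (-(w j / vv n t)) ^ k) ^ 2))| ≤
       |c j| * (99 * (n / (2 * t)) ^ (2 * m) / t ^ 3) := by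
    intro j hj
    obtain ⟨ha, hb⟩ := hθ j hj
    have g3 := approx3 ha (hb.trans hx1) m
    have g2 := approx2 ha (hb.trans hx1) m
    have hpow : (w j / vv n t) ^ m ≤ (n / (2 * t)) ^ (2 * m) := by
      rw [pow_mul]; exact pow_le_pow_left₀ ha hb m
    have hX0 : 0 ≤ (n / (2 * t)) ^ (2 * m) := by positivity
    rw [abs_mul]
    refine mul_le_mul_of_nonneg_left ?_ (abs_nonneg _)
    refine (abs_sub _ _).trans ?_
    rw [abs_mul, abs_mul, abs_of_nonneg (a := ss n t ^ 3 / vv n t ^ 3) (by positivity),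
      abs_of_nonneg (a := 3 * ss n t / vv n t ^ 2) (by positivity)]
    calc ss n t ^ 3 / vv n t ^ 3 * |1 / (1 + w j / vv n t) ^ 3 - (∑ k ∈ range m, (-(w j / vv n t)) ^ k) ^ 3| +
        3 * ss n t / vv n t ^ 2 * |1 / (1 + w j / vv n t) ^ 2 - (∑ k ∈ range m, (-(w j / vv n t)) ^ k) ^ 2|
        ≤ 27 / t ^ 3 * (3 * (n / (2 * t)) ^ (2 * m)) + 9 / t ^ 3 * (2 * (n / (2 * t)) ^ (2 * m)) := by
          refine add_le_add ?_ ?_
          · exact mul_le_mul hA (g3.trans (by linarith)) (abs_nonneg _) (by positivity)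
          · exact mul_le_mul hB (g2.trans (by linarith)) (abs_nonneg _) (by positivity)
      _ = 99 * (n / (2 * t)) ^ (2 * m) / t ^ 3 := by ring
  calc _ ≤ ∑ j ∈ Q, |c j| * (99 * (n / (2 * t)) ^ (2 * m) / t ^ 3) :=
        (Finset.abs_sum_le_sum_abs _ _).trans (Finset.sum_le_sum hterm)
    _ = 99 * (∑ j ∈ Q, |c j|) * (n / (2 * t)) ^ (2 * m) / t ^ 3 := by
        rw [← Finset.sum_mul]; ring

end HZ89
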