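import Mathlib

/-!
# Values of the Hurwitz zeta function at 3: definitions
-/

namespace HZ89

open Finset

/-- The sum of `n⁻³` over all `n ≥ 1` which are congruent to `± x` modulo `q` (`0 < x < q / 2`). -/
noncomputable def S (q x : ℕ) : ℝ :=
  ∑' m : ℕ, (1 / ((q : ℝ) * m + x) ^ 3 + 1 / ((q : ℝ) * m + (q - x)) ^ 3)

/-- the poles: the numbers below `q n` whose classes modulo `q` are in `I` -/
def P (q n : ℕ) (I : Finset ℕ) : Finset ℕ := (range (q * n)).filter fun j => j % q ∈ I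

/-- the nodes -/
noncomputable def om (q n j : ℕ) : ℝ := (j : ℝ) / q * (n - (j : ℝ) / q)

/-- `v_t = t (t + n)` -/
def vv (n t : ℝ) : ℝ := t * (t + n)

/-- `s_t = 2 t + n` -/
def ss (n t : ℝ) : ℝ := 2 * t + n

/-- the kernel -/
noncomputable def kap (n t w : ℝ) : ℝ :=
  ss n t ^ 3 / (vv n t + w) ^ 3 - 3 * ss n t / (vv n t + w) ^ 2

/-- the term with number `t` of the linear form -/
noncomputable def FF (n : ℝ) (Q : Finset ℕ) (w : ℕ → ℝ) (c : ℕ → ℝ) (t : ℝ) : ℝ :=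
  ∑ j ∈ Q, c j * kap n t (w j)

/-- the linear form -/
noncomputable def ell (n : ℝ) (Q : Finset ℕ) (w : ℕ → ℝ) (c : ℕ → ℝ) : ℝ :=
  ∑' t : ℕ, FF n Q w c (t + 1)

/-- the moments of degree less than `d` are zero -/
def Mom (Q : Finset ℕ) (w : ℕ → ℝ) (d : ℕ) (c : ℕ → ℝ) : Prop :=
  ∀ p : Polynomial ℝ, p.natDegree < d → ∑ j ∈ Q, c j * p.eval (w j) = 0

/-- `C(j, k) C(L - j, k)` -/
def BB (L k j : ℕ) : ℕ := j.choose k * (L - j).choose k

/-- `C(j, k) C(L - j, k)` as a polynomial in the node `om q n j`, `L = q n` -/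
noncomputable def bp (q n k : ℕ) : Polynomial ℝ :=
  Polynomial.C (1 / ((k.factorial : ℝ) ^ 2)) *
    ∏ m ∈ range k, (Polynomial.C ((q : ℝ) ^ 2) * Polynomial.X -
      Polynomial.C ((m : ℝ) * (q * n - m)))

end HZ89
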