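import Pool.Agent.LibHZ89.A3b

/-!
# Row F1: the linear form in terms of the numbers `S q x`

Plan: `kap_eq` with `t + 1`; for `j = x + q i` (`x = j % q`, `i = j / q`):
`∑'_t 1/(q (t+1) + j)^3 = ∑'_m 1/(q m + x)^3 - ∑_{m < i+1} 1/(q m + x)^3`
(`Summable.sum_add_tsum_nat_add`), `∑'_t 1/(q (t+1) + q n - j)^3 = ∑'_m 1/(q m + (q - x))^3 -
∑_{m < n - i} 1/(q m + (q-x))^3` (`q (t+1) + q n - j = q (t + (n - i)) + (q - x)`).
-/

namespace HZ89

open Finset

theorem f1_summable {q α : ℝ} (hq : 0 < q) (hα : 0 < α) :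
    Summable fun m : ℕ => 1 / (q * m + α) ^ 3 := by
  have hμ : 0 < min q α := lt_min hq hα
  have h1 : Summable fun m : ℕ => (1 / (min q α) ^ 3) * (1 / ((m : ℝ) + 1) ^ 3) := by
    apply Summable.mul_left
    have h2 : Summable fun m : ℕ => 1 / (m : ℝ) ^ 3 :=
      Real.summable_one_div_nat_pow.2 (by norm_num)
    have h3 := (summable_nat_add_iff 1).2 h2
    simpa using h3
  refine Summable.of_nonneg_of_le (fun m => ?_) (fun m => ?_) h1
  · have hm : (0 : ℝ) ≤ m := Nat.cast_nonneg m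
    positivity
  · have hm : (0 : ℝ) ≤ m := Nat.cast_nonneg m
    have h4 : min q α * ((m : ℝ) + 1) ≤ q * m + α := by
      have h5 : min q α * m ≤ q * m := mul_le_mul_of_nonneg_right (min_le_left _ _) hm
      have h6 := min_le_right q α
      linarith
    have h7 : 0 < min q α * ((m : ℝ) + 1) := by positivity
    calc 1 / (q * m + α) ^ 3 ≤ 1 / (min q α * ((m : ℝ) + 1)) ^ 3 := by
          apply one_div_le_one_div_of_le (by positivity)
          exact pow_le_pow_left₀ h7.le h4 3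
      _ = (1 / (min q α) ^ 3) * (1 / ((m : ℝ) + 1) ^ 3) := by
          rw [mul_pow]
          field_simp

theorem f1_tsum {q α : ℝ} (hq : 0 < q) (hα : 0 < α) (k : ℕ) :
    ∑' t : ℕ, 1 / (q * ((t + k : ℕ) : ℝ) + α) ^ 3 =
      ∑' m : ℕ, 1 / (q * m + α) ^ 3 - ∑ m ∈ range k, 1 / (q * (m : ℝ) + α) ^ 3 := by
  have h := (f1_summable hq hα).sum_add_tsum_nat_add k
  rw [← h]
  ring

theorem ell_eq {q n : ℕ} {I : Finset ℕ} (hq : 1 ≤ q) (hn : 1 ≤ n)
    (hI : ∀ x ∈ I, 1 ≤ x ∧ 2 * x < q) (c : ℕ → ℝ) :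
    1 / (q : ℝ) ^ 3 * ell n (P q n I) (om q n) c = ∑ j ∈ P q n I, c j * (S q (j % q) -
      ∑ m ∈ range (j / q + 1), 1 / ((q : ℝ) * m + (j % q : ℕ)) ^ 3 -
      ∑ m ∈ range (n - j / q), 1 / ((q : ℝ) * m + (q - (j % q : ℕ))) ^ 3) := by
  have hq0 : (0 : ℝ) < q := by exact_mod_cast hq
  -- the two series of one pole
  have key : ∀ j ∈ P q n I,
      (Summable fun t : ℕ => 1 / (q : ℝ) ^ 3 * kap n ((t : ℝ) + 1) (om q n j)) ∧
      ∑' t : ℕ, 1 / (q : ℝ) ^ 3 * kap n ((t : ℝ) + 1) (om q n j) = S q (j % q) -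
        ∑ m ∈ range (j / q + 1), 1 / ((q : ℝ) * m + (j % q : ℕ)) ^ 3 -
        ∑ m ∈ range (n - j / q), 1 / ((q : ℝ) * m + (q - (j % q : ℕ))) ^ 3 := by
    intro j hj
    obtain ⟨hj1, hjL, hjI, hj2, hjx⟩ := mem_P hI hj
    have hx0 : (0 : ℝ) < (j % q : ℕ) := by exact_mod_cast hjx
    have hx1 : (0 : ℝ) < (q : ℝ) - (j % q : ℕ) := by
      have : (j % q : ℕ) < q := by omega
      have h2 : ((j % q : ℕ) : ℝ) < q := by exact_mod_cast this
      linarith
    have hin : j / q < n := Nat.div_lt_of_lt_mul hjL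
    have hjd : (j : ℝ) = q * (j / q : ℕ) + (j % q : ℕ) := by
      exact_mod_cast (Nat.div_add_mod j q).symm
    have hs1 := f1_summable hq0 hx0
    have hs2 := f1_summable hq0 hx1
    have hs1' : Summable fun t : ℕ =>
        1 / ((q : ℝ) * ((t + (j / q + 1) : ℕ) : ℝ) + (j % q : ℕ)) ^ 3 :=
      (summable_nat_add_iff (f := fun m : ℕ => 1 / ((q : ℝ) * m + (j % q : ℕ)) ^ 3) _).2 hs1
    have hs2' : Summable fun t : ℕ =>
        1 / ((q : ℝ) * ((t + (n - j / q) : ℕ) : ℝ) + (q - (j % q : ℕ))) ^ 3 :=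
      (summable_nat_add_iff (f := fun m : ℕ => 1 / ((q : ℝ) * m + (q - (j % q : ℕ))) ^ 3) _).2 hs2
    have hterm : (fun t : ℕ => 1 / (q : ℝ) ^ 3 * kap n ((t : ℝ) + 1) (om q n j)) = fun t : ℕ =>
        1 / ((q : ℝ) * ((t + (j / q + 1) : ℕ) : ℝ) + (j % q : ℕ)) ^ 3 +
        1 / ((q : ℝ) * ((t + (n - j / q) : ℕ) : ℝ) + (q - (j % q : ℕ))) ^ 3 := by
      funext t
      have ht : (0 : ℝ) < (t : ℝ) + 1 := by positivity
      rw [← kap_eq hq hI hj ht]
      have e1 : (q : ℝ) * ((t : ℝ) + 1) + j =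
          (q : ℝ) * ((t + (j / q + 1) : ℕ) : ℝ) + (j % q : ℕ) := by
        rw [Nat.cast_add, Nat.cast_add, Nat.cast_one]
        linear_combination hjd
      have e2 : (q : ℝ) * ((t : ℝ) + 1) + ((q : ℝ) * n - j) =
          (q : ℝ) * ((t + (n - j / q) : ℕ) : ℝ) + (q - (j % q : ℕ)) := by
        rw [Nat.cast_add, Nat.cast_sub hin.le]
        linear_combination -hjd
      rw [e1, e2]
    refine ⟨by rw [hterm]; exact hs1'.add hs2', ?_⟩
    rw [hterm, hs1'.tsum_add hs2', f1_tsum hq0 hx0, f1_tsum hq0 hx1]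
    unfold S
    rw [hs1.tsum_add hs2]
    ring
  have h1 : 1 / (q : ℝ) ^ 3 * ell n (P q n I) (om q n) c = ∑' t : ℕ, ∑ j ∈ P q n I,
      c j * (1 / (q : ℝ) ^ 3 * kap n ((t : ℝ) + 1) (om q n j)) := by
    unfold ell FF
    rw [← tsum_mul_left]
    refine tsum_congr fun t => ?_
    rw [Finset.mul_sum]
    refine Finset.sum_congr rfl fun j _ => ?_
    ring
  rw [h1, Summable.tsum_finsetSum fun j hj => (key j hj).1.mul_left (c j)]
  refine Finset.sum_congr rfl fun j hj => ?_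
  rw [tsum_mul_left, (key j hj).2]

end HZ89
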