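import Pool.Agent.LibHZ89.Defs

/-!
# Row N1: the numerator of `∑ c_j / (X - w_j)` and its degree

Plan for `num_mul_X_pow`: for each `j`, with `H = ∏ i ∈ Q, (X - C (w i))`,
`(X^d - C (w j)^d) * ∏ i ∈ Q.erase j, (X - C (w i)) = (∑ s ∈ range d, X^(d-1-s) * C (w j)^s) * H`
(`geom_sum₂_mul` or `Commute.geom_sum₂_mul`, `Finset.mul_prod_erase`).  Multiply by `C (c j)`, sum over
`j`, and use `∑ j ∈ Q, c j * w j ^ s = 0` for `s < d` (`Mom` for `p = X ^ s`).
`num_natDegree`: `natDegree (num Q w c') ≤ card Q - 1` for every `c'` (`natDegree_sum_le_of_forall_le`,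
`natDegree_prod_le`), apply to `c' = w ^ d * c`; if `num Q w c ≠ 0` then
`natDegree (X ^ d * num) = d + natDegree num`.
-/

namespace HZ89

open Finset Polynomial

/-- the numerator of `∑ c_j / (X - w_j)` -/
noncomputable def num (Q : Finset ℕ) (w c : ℕ → ℝ) : ℝ[X] :=
  ∑ j ∈ Q, C (c j) * ∏ i ∈ Q.erase j, (X - C (w i))

theorem num_eval {Q : Finset ℕ} {w c : ℕ → ℝ} {j : ℕ} (hj : j ∈ Q) :
    (num Q w c).eval (w j) = c j * ∏ i ∈ Q.erase j, (w j - w i) := by
  unfold num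
  rw [eval_finsetSum, Finset.sum_eq_single j]
  · rw [eval_mul, eval_C, eval_prod]
    simp
  · intro k hk hkj
    rw [eval_mul, eval_prod]
    have h1 : ∏ i ∈ Q.erase k, eval (w j) (X - C (w i)) = 0 :=
      Finset.prod_eq_zero (mem_erase.2 ⟨hkj.symm, hj⟩) (by simp)
    rw [h1, mul_zero]
  · intro h
    exact absurd hj h

theorem num_ne_zero {Q : Finset ℕ} {w c : ℕ → ℝ} (hinj : Set.InjOn w Q) (hc : ∃ j ∈ Q, c j ≠ 0) :
    num Q w c ≠ 0 := by
  obtain ⟨j, hj, hcj⟩ := hc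
  intro h
  have h1 := num_eval (w := w) (c := c) hj
  rw [h, eval_zero] at h1
  have h2 : c j * ∏ i ∈ Q.erase j, (w j - w i) ≠ 0 := by
    refine mul_ne_zero hcj (Finset.prod_ne_zero_iff.2 fun i hi => ?_)
    rw [mem_erase] at hi
    intro h3
    exact hi.1 (hinj hi.2 hj (by linarith))
  exact h2 h1.symm

theorem num_mul_X_pow {Q : Finset ℕ} {w c : ℕ → ℝ} {d : ℕ} (h : Mom Q w d c) :
    X ^ d * num Q w c = num Q w (fun j => w j ^ d * c j) := by
  rw [← sub_eq_zero]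
  have h1 : X ^ d * num Q w c - num Q w (fun j => w j ^ d * c j) =
      ∑ j ∈ Q, ∑ s ∈ range d, X ^ s * C (c j * w j ^ (d - 1 - s)) * ∏ i ∈ Q, (X - C (w i)) := by
    unfold num
    rw [Finset.mul_sum, ← Finset.sum_sub_distrib]
    refine Finset.sum_congr rfl fun j hj => ?_
    have h2 : (X ^ d - C (w j) ^ d : ℝ[X]) =
        (∑ s ∈ range d, X ^ s * C (w j) ^ (d - 1 - s)) * (X - C (w j)) :=
      (Commute.geom_sum₂_mul (Commute.all _ _) d).symm
    have h3 := Finset.mul_prod_erase Q (fun i => (X - C (w i) : ℝ[X])) hj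
    have h4 : X ^ d * (C (c j) * ∏ i ∈ Q.erase j, (X - C (w i))) -
        C (w j ^ d * c j) * ∏ i ∈ Q.erase j, (X - C (w i)) =
        C (c j) * ((X ^ d - C (w j) ^ d) * ∏ i ∈ Q.erase j, (X - C (w i))) := by
      rw [C_mul, C_pow]
      ring
    rw [h4, h2, mul_assoc (∑ s ∈ range d, X ^ s * C (w j) ^ (d - 1 - s)), h3, Finset.sum_mul,
      Finset.mul_sum]
    refine Finset.sum_congr rfl fun s _ => ?_
    rw [C_mul, C_pow]
    ring
  rw [h1, Finset.sum_comm]
  refine Finset.sum_eq_zero fun s hs => ?_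
  rw [mem_range] at hs
  rw [← Finset.sum_mul, ← Finset.mul_sum]
  have h5 : ∑ j ∈ Q, (C (c j * w j ^ (d - 1 - s)) : ℝ[X]) = 0 := by
    rw [← map_sum]
    have h6 := h (X ^ (d - 1 - s)) (by rw [natDegree_X_pow]; omega)
    simp only [eval_pow, eval_X] at h6
    rw [h6, map_zero]
  rw [h5, mul_zero, zero_mul]

private theorem n1_deg (Q : Finset ℕ) (w c : ℕ → ℝ) : (num Q w c).natDegree ≤ Q.card - 1 := by
  unfold num
  refine natDegree_sum_le_of_forall_le _ _ fun j hj => ?_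
  refine (natDegree_C_mul_le _ _).trans ?_
  refine (natDegree_prod_le _ _).trans ?_
  refine (Finset.sum_le_card_nsmul _ _ 1 fun i _ => ?_).trans ?_
  · exact natDegree_X_sub_C_le _
  · rw [smul_eq_mul, mul_one, card_erase_of_mem hj]

theorem num_natDegree {Q : Finset ℕ} {w c : ℕ → ℝ} {d : ℕ} (h : Mom Q w d c) :
    (num Q w c).natDegree ≤ Q.card - 1 - d := by
  by_cases h0 : num Q w c = 0
  · rw [h0, natDegree_zero]
    exact Nat.zero_le _
  · have h1 := n1_deg Q w (fun j => w j ^ d * c j)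
    rw [← num_mul_X_pow h, natDegree_mul (pow_ne_zero _ X_ne_zero) h0, natDegree_X_pow] at h1
    omega

end HZ89
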