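import Pool.Agent.LibHZ89.Z0

/-!
# Row Z1: the zeros of the difference polynomial (MEDIUM, 40 min)

`ps_add`: `(j + q) % q = j % q`, `(j + q) / q = j / q + 1` (`Nat.add_mod_right`, `Nat.add_div_right`),
`Finset.sum_range_succ`; the new term of the first sum is `1/(q (j/q+1) + j%q)^3 = 1/(j+q)^3`
(`Nat.div_add_mod`), the lost term of the second sum (`m = n - j/q - 1`) is
`1/(q (n - j/q - 1) + (q - j%q))^3 = 1/(q n - j)^3`.
`dif_eval`: with `A = M(om j)`, `A' = M(om (j+q))`: `Γ(om j) = G A`, `Γ(om(j+q)) = (G + ρ) A'`,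
`A (G + ρ) A' - A' G A = ρ A A'` and `(L-j)^3 (j+q)^3 ρ = (j+q)^3 - (L-j)^3`.
`dif_symm`: `omP` is symmetric under `y ↦ L - y`; `(L - q - y) + q = L - y`, so `y` and `y + q` are
exchanged (up to the symmetry) and everything is antisymmetric.
-/

namespace HZ89

open Finset Polynomial

variable {q n : ℕ} {I : Finset ℕ}

theorem omP_eval (hq : 1 ≤ q) (j : ℕ) : (omP q n).eval (j : ℝ) = om q n j := by
  have hq' : (q : ℝ) ≠ 0 := by positivity
  simp only [omP, om, eval_mul, eval_sub, eval_C, eval_X]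
  field_simp

theorem omP_symm (y : ℝ) : (omP q n).eval ((q : ℝ) * n - y) = (omP q n).eval y := by
  simp only [omP, eval_mul, eval_sub, eval_C, eval_X]
  ring

theorem omP_natDegree : (omP q n).natDegree ≤ 2 := by
  unfold omP
  compute_degree

theorem ps_add (hq : 1 ≤ q) {j : ℕ} (hj : j + q < q * n) :
    ps q n (j + q) = ps q n j + 1 / ((j : ℝ) + q) ^ 3 - 1 / ((q : ℝ) * n - j) ^ 3 := by
  have e1 : (j + q) % q = j % q := Nat.add_mod_right j q
  have e2 : (j + q) / q = j / q + 1 := Nat.add_div_right j (by omega)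
  have e3 : q * (j / q) + j % q = j := Nat.div_add_mod j q
  have h1 : j / q + 1 ≤ n := by
    have h2 : q * (j / q) < q * n := by omega
    have h3 := Nat.lt_of_mul_lt_mul_left h2
    omega
  obtain ⟨d, hd⟩ : ∃ d, n = j / q + 1 + d := ⟨n - (j / q + 1), by omega⟩
  have e4 : n - (j / q + 1) = d := by omega
  have e5 : n - j / q = d + 1 := by omega
  have e6 : ((q : ℝ)) * (j / q : ℕ) + (j % q : ℕ) = j := by exact_mod_cast e3
  have e7 : (n : ℝ) = (j / q : ℕ) + 1 + d := by exact_mod_cast hd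
  unfold ps
  rw [e1, e2, e4, e5, Finset.sum_range_succ _ (j / q + 1), Finset.sum_range_succ _ d]
  have e8 : (q : ℝ) * ((j / q + 1 : ℕ) : ℝ) + (j % q : ℕ) = (j : ℝ) + q := by
    push_cast
    linarith
  have e9 : (q : ℝ) * (d : ℝ) + ((q : ℝ) - (j % q : ℕ)) = (q : ℝ) * n - j := by
    rw [e7]
    linarith
  rw [e8, e9]
  ring

/-- `j ∈ P q (n - 1) I` says that `j` and `j + q` are in `P q n I`. -/
theorem mem_P_pred (hq : 1 ≤ q) (hn : 1 ≤ n) {j : ℕ} (hj : j ∈ P q (n - 1) I) :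
    j ∈ P q n I ∧ j + q ∈ P q n I ∧ j + q < q * n := by
  simp only [P, mem_filter, mem_range] at hj ⊢
  obtain ⟨m, rfl⟩ : ∃ m, n = m + 1 := ⟨n - 1, by omega⟩
  rw [Nat.add_sub_cancel] at hj
  obtain ⟨h1, h2⟩ := hj
  have h3 : q * (m + 1) = q * m + q := by ring
  rw [h3, Nat.add_mod_right]
  exact ⟨⟨by omega, h2⟩, ⟨by omega, h2⟩, by omega⟩

theorem dif_eval (hq : 1 ≤ q) (hn : 1 ≤ n) {M Γ : ℝ[X]} {β : ℕ → ℝ}
    (h : ∀ j ∈ P q n I, Γ.eval (om q n j) = (β (j % q) - ps q n j) * M.eval (om q n j)) {j : ℕ}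
    (hj : j ∈ P q (n - 1) I) : (dif q n (M.comp (omP q n)) (Γ.comp (omP q n))).eval (j : ℝ) = 0 := by
  obtain ⟨h1, h2, h3⟩ := mem_P_pred hq hn hj
  have e1 := h j h1
  have e2 := h (j + q) h2
  rw [ps_add hq h3, Nat.add_mod_right] at e2
  have c1 : ((j + q : ℕ) : ℝ) = (j : ℝ) + q := by push_cast; ring
  have e3 : (omP q n).eval ((j : ℝ) + q) = om q n (j + q) := by
    rw [← c1]
    exact omP_eval hq (j + q)
  have hq' : (0 : ℝ) < q := by exact_mod_cast hq
  have p1 : (j : ℝ) + q ≠ 0 := by positivity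
  have p2 : (q : ℝ) * n - j ≠ 0 := by
    have h4 : ((j + q : ℕ) : ℝ) < ((q * n : ℕ) : ℝ) := by exact_mod_cast h3
    push_cast at h4
    have h5 : (0 : ℝ) < (q : ℝ) * n - j := by linarith
    exact h5.ne'
  simp only [dif, eval_mul, eval_sub, eval_pow, eval_add, eval_comp, eval_C, eval_X, e3,
    omP_eval hq j, e1, e2]
  field_simp
  ring

theorem dif_symm (M Γ : ℝ[X]) (y : ℝ) :
    (dif q n (M.comp (omP q n)) (Γ.comp (omP q n))).eval ((q : ℝ) * n - q - y) =
      -(dif q n (M.comp (omP q n)) (Γ.comp (omP q n))).eval y := by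
  have e1 : (omP q n).eval ((q : ℝ) * n - q - y) = (omP q n).eval (y + q) := by
    rw [← omP_symm (y + q)]
    congr 1
    ring
  have e2 : (omP q n).eval ((q : ℝ) * n - q - y + q) = (omP q n).eval y := by
    rw [← omP_symm y]
    congr 1
    ring
  simp only [dif, eval_mul, eval_sub, eval_pow, eval_add, eval_comp, eval_C, eval_X, e1, e2]
  ring

end HZ89
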